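import Pool.Agent.W831.HI.Rank

set_option autoImplicit false
set_option linter.unusedSectionVars false

/-!
The eight-flow theorem at a prescribed vertex `c`: one of the three binary flows vanishes at all
edges at `c`.
-/

namespace Pool.Agent.W831.HI

open Finset
open Pool.Agent.Helper879.ECD (sp Ind sp_mono mem_sp F2 IsFlow inc fnl fnl_single fnl_inc cn
  f2_add_self exists_coeff)
open Pool.Agent.H825R2.EW (packM)

section

variable {W E : Type} [Fintype W] [DecidableEq W] [Fintype E] [DecidableEq E]

/-- a binary flow equal to one on `M \ T` and zero outside `M` -/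
lemma flow_of_span (a b : E → W) (M T : Finset E) (hTM : T ⊆ M)
    (h : sp F2 (inc a b) T = sp F2 (inc a b) M) :
    ∃ ψ : E → F2, (∀ e ∈ M, e ∉ T → ψ e = 1) ∧ (∀ e, e ∉ M → ψ e = 0) ∧ IsFlow a b ψ := by
  have hτ : ∑ e ∈ M, inc a b e ∈ sp F2 (inc a b) M :=
    Submodule.sum_mem _ (fun e he => mem_sp he)
  rw [← h] at hτ
  obtain ⟨c, hc⟩ := exists_coeff hτ
  refine ⟨fun e => if e ∈ M then 1 + (if e ∈ T then c e else 0) else 0, ?_, ?_, ?_⟩
  · intro e he heT; simp [he, heT]
  · intro e he; simp [he]
  · intro d
    have h1 : ∑ e, (if e ∈ M then 1 + (if e ∈ T then c e else 0) else 0) • inc a b e = 0 := by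
      have h2 : ∀ e ∈ (univ : Finset E),
          (if e ∈ M then 1 + (if e ∈ T then c e else 0) else 0) • inc a b e =
          (if e ∈ M then inc a b e else 0) + if e ∈ T then c e • inc a b e else 0 := by
        intro e _
        by_cases hM : e ∈ M
        · rw [if_pos hM, if_pos hM, add_smul, one_smul]
          split_ifs <;> simp
        · have hT : e ∉ T := fun h => hM (hTM h)
          rw [if_neg hM, if_neg hM, if_neg hT, zero_smul, add_zero]
      rw [Finset.sum_congr rfl h2, Finset.sum_add_distrib, ← Finset.sum_filter,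
        ← Finset.sum_filter, Finset.filter_mem_eq_inter, Finset.univ_inter,
        Finset.filter_mem_eq_inter, Finset.univ_inter, hc]
      exact vself _
    have h2 := congrArg (fnl d) h1
    rw [map_sum, map_zero] at h2
    refine Eq.trans ?_ h2
    apply Finset.sum_congr rfl
    intro e _
    rw [map_smul, fnl_inc, smul_eq_mul]

/-- removing zero vectors does not change the span -/
lemma sp_active (a b : E → W) (act : E × Fin 2 → Prop) [DecidablePred act]
    (I : Finset (E × Fin 2)) :
    sp F2 (fun p : E × Fin 2 => if act p then inc a b p.1 else 0) I =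
      sp F2 (inc a b) ((I.filter act).image Prod.fst) := by
  apply le_antisymm
  · unfold sp
    rw [Submodule.span_le]
    rintro _ ⟨p, hp, rfl⟩
    show (if act p then inc a b p.1 else 0) ∈ _
    by_cases h : act p
    · rw [if_pos h]
      apply Submodule.subset_span
      refine ⟨p.1, ?_, rfl⟩
      rw [Finset.mem_coe]
      exact Finset.mem_image.2 ⟨p, Finset.mem_filter.2 ⟨Finset.mem_coe.1 hp, h⟩, rfl⟩
    · rw [if_neg h]; exact Submodule.zero_mem _
  · unfold sp
    rw [Submodule.span_le]
    rintro _ ⟨e, he, rfl⟩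
    rw [Finset.mem_coe] at he
    obtain ⟨p, hp, rfl⟩ := Finset.mem_image.1 he
    rw [Finset.mem_filter] at hp
    apply Submodule.subset_span
    refine ⟨p, Finset.mem_coe.2 hp.1, ?_⟩
    show (if act p then inc a b p.1 else 0) = _
    rw [if_pos hp.2]

/-- the case in which every nonzero cut has at least three edges -/
lemma flow8c (a b : E → W) (c : W) (h3 : ∀ X : Finset W, cn a b univ X = 0 ∨ 3 ≤ cn a b univ X) :
    ∃ ψ : Fin 3 → E → F2, (∀ e, ψ 0 e ≠ 0 ∨ ψ 1 e ≠ 0 ∨ ψ 2 e ≠ 0) ∧
      (∀ i, IsFlow a b (ψ i)) ∧ ∀ e, (a e = c ∨ b e = c) → ψ 0 e = 0 := by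
  classical
  obtain ⟨L, hL⟩ : ∃ L : Finset E, ∀ e, e ∈ L ↔ a e = c ∨ b e = c :=
    ⟨univ.filter (fun e => a e = c ∨ b e = c), by intro e; simp⟩
  let act : Fin 3 → E × Fin 2 → Prop := fun i p =>
    if i = 0 then p.1 ∉ L else ¬ (p.1 ∈ L ∧ p.2 = 1)
  let x : Fin 3 → E × Fin 2 → (W → F2) := fun i p => if act i p then inc a b p.1 else 0
  have hsp : ∀ (i : Fin 3) (I : Finset (E × Fin 2)), sp F2 (x i) I =
      sp F2 (inc a b) ((I.filter (act i)).image Prod.fst) := fun i I => sp_active a b (act i) I
  have hu0 : ((univ.filter (act 0)).image Prod.fst : Finset E) = univ \ L := by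
    ext e
    simp only [act, if_true, Finset.mem_image, Finset.mem_filter, Finset.mem_univ, true_and,
      Finset.mem_sdiff]
    constructor
    · rintro ⟨p, hp, rfl⟩; exact hp
    · intro he; exact ⟨(e, 0), he, rfl⟩
  have hu1 : ∀ i : Fin 3, i ≠ 0 → ((univ.filter (act i)).image Prod.fst : Finset E) = univ := by
    intro i hi
    ext e
    simp only [act, if_neg hi, Finset.mem_image, Finset.mem_filter, Finset.mem_univ, true_and,
      iff_true]
    exact ⟨(e, 0), by simp, rfl⟩
  have hrank : ∀ R : Finset (E × Fin 2),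
      ∑ i, Module.finrank F2 (sp F2 (x i) univ) ≤
      ∑ i, Module.finrank F2 (sp F2 (x i) R) + (univ \ R).card := by
    intro R
    have hx12 : x 1 = x 2 := by
      funext p
      simp [x, act]
    have hle : sp F2 (x 0) R ≤ sp F2 (x 1) R := by
      rw [hsp, hsp]
      apply sp_mono
      intro e he
      obtain ⟨p, hp, rfl⟩ := Finset.mem_image.1 he
      rw [Finset.mem_filter] at hp
      apply Finset.mem_image.2
      refine ⟨p, Finset.mem_filter.2 ⟨hp.1, ?_⟩, rfl⟩
      have h4 : p.1 ∉ L := by simpa [act] using hp.2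
      simp [act, h4]
    have key := rank_c a b c h3 L hL (sp F2 (x 0) R) (sp F2 (x 1) R) hle
    rw [Fin.sum_univ_three, Fin.sum_univ_three, ← hx12, hsp 0 univ, hsp 1 univ, hu0,
      hu1 1 (by decide)]
    have hcard : 2 * ((univ \ L).filter (fun e => ¬ inc a b e ∈ sp F2 (x 0) R)).card +
          (L.filter (fun e => ¬ inc a b e ∈ sp F2 (x 1) R)).card ≤ (univ \ R).card := by
      have h1 : (((univ \ L).filter (fun e => ¬ inc a b e ∈ sp F2 (x 0) R)) ×ˢ
          (univ : Finset (Fin 2)) ∪
          (L.filter (fun e => ¬ inc a b e ∈ sp F2 (x 1) R)).image (fun e => (e, (0 : Fin 2)))) ⊆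
          univ \ R := by
        intro p hp
        rw [Finset.mem_union] at hp
        rw [Finset.mem_sdiff]
        refine ⟨Finset.mem_univ _, fun hpR => ?_⟩
        rcases hp with hp | hp
        · rw [Finset.mem_product, Finset.mem_filter, Finset.mem_sdiff] at hp
          apply hp.1.2
          rw [hsp]
          apply mem_sp
          apply Finset.mem_image.2
          exact ⟨p, Finset.mem_filter.2 ⟨hpR, by simp [act, hp.1.1.2]⟩, rfl⟩
        · obtain ⟨e, he, rfl⟩ := Finset.mem_image.1 hp
          rw [Finset.mem_filter] at he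
          apply he.2
          rw [hsp]
          apply mem_sp
          apply Finset.mem_image.2
          exact ⟨(e, 0), Finset.mem_filter.2 ⟨hpR, by simp [act]⟩, rfl⟩
      have h2 := Finset.card_le_card h1
      rw [Finset.card_union_of_disjoint, Finset.card_product, Finset.card_univ, Fintype.card_fin,
        Finset.card_image_of_injective _ (by
          intro e f h
          exact (Prod.mk.inj h).1)] at h2
      · omega
      · rw [Finset.disjoint_left]
        intro p hp hq
        rw [Finset.mem_product, Finset.mem_filter, Finset.mem_sdiff] at hp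
        obtain ⟨e, he, rfl⟩ := Finset.mem_image.1 hq
        rw [Finset.mem_filter] at he
        exact hp.1.1.2 he.1
    omega
  obtain ⟨I, hd, hI⟩ := packM (F := F2) (x := x) hrank
  have hT0 : sp F2 (inc a b) (((I 0).filter (act 0)).image Prod.fst) =
      sp F2 (inc a b) (univ \ L) := by
    rw [← hsp, hI, hsp, hu0]
  have hT1 : ∀ i : Fin 3, i ≠ 0 → sp F2 (inc a b) (((I i).filter (act i)).image Prod.fst) =
      sp F2 (inc a b) univ := by
    intro i hi
    rw [← hsp, hI, hsp, hu1 i hi]
  obtain ⟨ψ0, h01, h02, h03⟩ := flow_of_span a b (univ \ L) _ (by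
    intro e he
    obtain ⟨p, hp, rfl⟩ := Finset.mem_image.1 he
    rw [Finset.mem_filter] at hp
    have h4 : p.1 ∉ L := by simpa [act] using hp.2
    rw [Finset.mem_sdiff]
    exact ⟨Finset.mem_univ _, h4⟩) hT0
  obtain ⟨ψ1, h11, _, h13⟩ := flow_of_span a b univ _ (Finset.subset_univ _) (hT1 1 (by decide))
  obtain ⟨ψ2, h21, _, h23⟩ := flow_of_span a b univ _ (Finset.subset_univ _) (hT1 2 (by decide))
  refine ⟨![ψ0, ψ1, ψ2], ?_, ?_, ?_⟩
  · intro e
    by_contra hcon
    push Not at hcon
    obtain ⟨c0, c1, c2⟩ := hcon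
    replace c0 : ψ0 e = 0 := c0
    replace c1 : ψ1 e = 0 := c1
    replace c2 : ψ2 e = 0 := c2
    have m1 : e ∈ ((I 1).filter (act 1)).image Prod.fst := by
      by_contra h
      rw [h11 e (Finset.mem_univ _) h] at c1
      exact absurd c1 (by decide)
    have m2 : e ∈ ((I 2).filter (act 2)).image Prod.fst := by
      by_contra h
      rw [h21 e (Finset.mem_univ _) h] at c2
      exact absurd c2 (by decide)
    obtain ⟨⟨e1, j1⟩, hp1, he1⟩ := Finset.mem_image.1 m1
    obtain ⟨⟨e2, j2⟩, hp2, he2⟩ := Finset.mem_image.1 m2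
    rw [Finset.mem_filter] at hp1 hp2
    simp only at he1 he2
    subst he1
    subst he2
    by_cases heL : e2 ∈ L
    · have q1 : j1 ≠ 1 := by
        intro h
        have := hp1.2
        simp [act, heL, h] at this
      have q2 : j2 ≠ 1 := by
        intro h
        have := hp2.2
        simp [act, heL, h] at this
      have q3 : j1 = j2 := by
        have r1 : ∀ j : Fin 2, j ≠ 1 → j = 0 := by decide
        rw [r1 j1 q1, r1 j2 q2]
      rw [q3] at hp1
      exact Finset.disjoint_left.1 (hd 1 2 (by decide)) hp1.1 hp2.1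
    · have m0 : e2 ∈ ((I 0).filter (act 0)).image Prod.fst := by
        by_contra h
        rw [h01 e2 (Finset.mem_sdiff.2 ⟨Finset.mem_univ _, heL⟩) h] at c0
        exact absurd c0 (by decide)
      obtain ⟨⟨e0, j0⟩, hp0, he0⟩ := Finset.mem_image.1 m0
      rw [Finset.mem_filter] at hp0
      simp only at he0
      subst he0
      have r : ∀ j0 j1 j2 : Fin 2, j0 = j1 ∨ j0 = j2 ∨ j1 = j2 := by decide
      rcases r j0 j1 j2 with r | r | r
      · rw [r] at hp0
        exact Finset.disjoint_left.1 (hd 0 1 (by decide)) hp0.1 hp1.1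
      · rw [r] at hp0
        exact Finset.disjoint_left.1 (hd 0 2 (by decide)) hp0.1 hp2.1
      · rw [r] at hp1
        exact Finset.disjoint_left.1 (hd 1 2 (by decide)) hp1.1 hp2.1
  · intro i
    fin_cases i
    · exact h03
    · exact h13
    · exact h23
  · intro e he
    exact h02 e (fun h => (Finset.mem_sdiff.1 h).2 ((hL e).2 he))

end

/-- The eight-flow theorem at a prescribed vertex. -/
theorem exists_flow8c {W E : Type} [Fintype W] [DecidableEq W] [Fintype E] [DecidableEq E] :
    ∀ (n : ℕ) (a b : E → W) (c : W), (univ.filter (fun e => a e ≠ b e)).card = n →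
      (∀ X : Finset W, cn a b univ X ≠ 1) →
      ∃ ψ : Fin 3 → E → F2, (∀ e, ψ 0 e ≠ 0 ∨ ψ 1 e ≠ 0 ∨ ψ 2 e ≠ 0) ∧
        (∀ i, IsFlow a b (ψ i)) ∧ ∀ e, (a e = c ∨ b e = c) → ψ 0 e = 0 := by
  intro n
  induction n using Nat.strong_induction_on with
  | _ n ih =>
  intro a b c hn h13
  by_cases h4 : ∀ X : Finset W, cn a b univ X = 0 ∨ 3 ≤ cn a b univ X
  · exact flow8c a b c h4
  · push Not at h4
    obtain ⟨X, hX0, hX4⟩ := h4
    have hX := h13 X
    have hX2 : cn a b univ X = 2 := by omega
    unfold cn at hX2
    obtain ⟨f, g, hfg, hset, hat⟩ : ∃ f g, f ≠ g ∧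
        univ.filter (fun e => ¬ (a e ∈ X ↔ b e ∈ X)) = {f, g} ∧
        ((a f = c ∨ b f = c) → (a g = c ∨ b g = c)) := by
      obtain ⟨f, g, hfg, hset⟩ := Finset.card_eq_two.1 hX2
      by_cases h : (a f = c ∨ b f = c) → (a g = c ∨ b g = c)
      · exact ⟨f, g, hfg, hset, h⟩
      · refine ⟨g, f, hfg.symm, by rw [hset, Finset.pair_comm], fun h' => ?_⟩
        exact absurd (fun _ => h') h
    have hmem : ∀ e, ¬ (a e ∈ X ↔ b e ∈ X) ↔ (e = f ∨ e = g) := by
      intro e
      have : e ∈ univ.filter (fun e => ¬ (a e ∈ X ↔ b e ∈ X)) ↔ e ∈ ({f, g} : Finset E) := by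
        rw [hset]
      simpa using this
    have hfne : a f ≠ b f := by
      intro h
      exact (hmem f).2 (Or.inl rfl) (by rw [h])
    let ρ : W → W := fun w => if w = b f then a f else w
    have hρ : ∀ (M : Finset E) (Y : Finset W), cn (fun e => ρ (a e)) (fun e => ρ (b e)) M Y =
        cn a b M (univ.filter (fun w => ρ w ∈ Y)) := by
      intro M Y
      unfold cn
      congr 1
      apply Finset.filter_congr
      intro e _
      simp
    have hlt : (univ.filter (fun e => ρ (a e) ≠ ρ (b e))).card < n := by
      rw [← hn]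
      apply Finset.card_lt_card
      rw [Finset.ssubset_iff_of_subset]
      · refine ⟨f, ?_, ?_⟩
        · rw [Finset.mem_filter]; exact ⟨Finset.mem_univ _, hfne⟩
        · rw [Finset.mem_filter]
          rintro ⟨_, h⟩
          apply h
          simp [ρ, hfne]
      · intro e he
        rw [Finset.mem_filter] at he ⊢
        refine ⟨Finset.mem_univ _, fun h => he.2 (by rw [h])⟩
    obtain ⟨φ, hnz, hf, hc0⟩ := ih _ hlt (fun e => ρ (a e)) (fun e => ρ (b e)) (ρ c) rfl (by
      intro Y; rw [hρ]; exact h13 _)
    have key : ∀ φ : E → F2, IsFlow (fun e => ρ (a e)) (fun e => ρ (b e)) φ →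
        ∃ ψ : E → F2, IsFlow a b ψ ∧ (∀ e, e ≠ f → ψ e = φ e) ∧ ψ f = φ g := by
      intro φ hφ
      let δ : W → F2 := fun w => if w = b f then 1 else 0
      let l : F2 := ∑ e ∈ univ.erase f, φ e * (δ (a e) + δ (b e))
      let ψ : E → F2 := fun e => if e = f then l else φ e
      have hψf : ψ f = l := if_pos rfl
      have hψne : ∀ e, e ≠ f → ψ e = φ e := fun e he => if_neg he
      have hflow : IsFlow a b ψ := by
        intro c
        let c' : W → F2 := fun w => c (ρ w)
        have hcc : ∀ w, c w = c' w + (c (a f) + c (b f)) * δ w := by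
          intro w
          by_cases hw : w = b f
          · simp only [c', ρ, δ, hw, if_true, mul_one]
            rw [← add_assoc, f2_add_self, zero_add]
          · simp only [c', ρ, δ, hw, if_false, mul_zero, add_zero]
        have h1 : ∑ e, ψ e * (c (a e) + c (b e)) =
            ∑ e, ψ e * (c' (a e) + c' (b e)) +
              (c (a f) + c (b f)) * ∑ e, ψ e * (δ (a e) + δ (b e)) := by
          rw [Finset.mul_sum, ← Finset.sum_add_distrib]
          apply Finset.sum_congr rfl
          intro e _
          rw [hcc (a e), hcc (b e)]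
          ring
        have h2 : ∑ e, ψ e * (c' (a e) + c' (b e)) = 0 := by
          have h3 := hφ c
          rw [← h3]
          apply Finset.sum_congr rfl
          intro e _
          by_cases he : e = f
          · rw [he]
            have h4 : c' (a f) + c' (b f) = 0 := by
              simp only [c', ρ, hfne, if_false, if_true]
              exact f2_add_self _
            have h5 : c (ρ (a f)) + c (ρ (b f)) = 0 := h4
            rw [h4, mul_zero, mul_zero]
          · rw [hψne e he]
        have h3 : ∑ e, ψ e * (δ (a e) + δ (b e)) = 0 := by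
          rw [← Finset.add_sum_erase univ _ (Finset.mem_univ f), hψf]
          have h4 : ∑ e ∈ univ.erase f, ψ e * (δ (a e) + δ (b e)) = l := by
            apply Finset.sum_congr rfl
            intro e he
            rw [hψne e (Finset.ne_of_mem_erase he)]
          rw [h4]
          have h5 : δ (a f) + δ (b f) = 1 := by simp [δ, hfne]
          rw [h5, mul_one]
          exact f2_add_self _
        rw [h1, h2, h3, mul_zero, add_zero]
      refine ⟨ψ, hflow, hψne, ?_⟩
      -- the two edges of the cut carry the same value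
      have h1 := hflow (fun w => if w ∈ X then 1 else 0)
      have h2 : ∀ e ∈ (univ : Finset E), ψ e * ((if a e ∈ X then (1 : F2) else 0) +
          (if b e ∈ X then 1 else 0)) = if (e = f ∨ e = g) then ψ e else 0 := by
        intro e _
        by_cases he : (e = f ∨ e = g)
        · rw [if_pos he]
          have := (hmem e).2 he
          by_cases h3 : a e ∈ X
          · have h4 : b e ∉ X := fun h4 => this ⟨fun _ => h4, fun _ => h3⟩
            simp [h3, h4]
          · have h4 : b e ∈ X := by
              by_contra h4; exact this ⟨fun h => absurd h h3, fun h => absurd h h4⟩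
            simp [h3, h4]
        · rw [if_neg he]
          have := not_not.1 (fun h => he ((hmem e).1 h))
          by_cases h3 : a e ∈ X
          · have h4 := this.1 h3
            simp only [h3, h4, if_true]
            rw [f2_add_self, mul_zero]
          · have h4 : b e ∉ X := fun h => h3 (this.2 h)
            simp [h3, h4]
      rw [Finset.sum_congr rfl h2, ← Finset.sum_filter] at h1
      have h3 : univ.filter (fun e => e = f ∨ e = g) = {f, g} := by
        ext e; simp
      rw [h3, Finset.sum_pair hfg, hψne g (Ne.symm hfg)] at h1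
      calc ψ f = ψ f + (φ g + φ g) := by rw [f2_add_self, add_zero]
        _ = (ψ f + φ g) + φ g := by ring
        _ = φ g := by rw [h1, zero_add]
    choose ψ k1 k2 k3 using fun i => key (φ i) (hf i)
    have hcc : ∀ e, (a e = c ∨ b e = c) → φ 0 e = 0 := by
      intro e he
      apply hc0 e
      rcases he with h | h
      · left; rw [h]
      · right; rw [h]
    refine ⟨ψ, ?_, k1, ?_⟩
    · intro e
      by_cases he : e = f
      · rw [he, k3, k3, k3]; exact hnz g
      · rw [k2 0 e he, k2 1 e he, k2 2 e he]; exact hnz e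
    · intro e he
      by_cases hef : e = f
      · rw [hef, k3]
        rw [hef] at he
        exact hcc g (hat he)
      · rw [k2 0 e hef]
        exact hcc e he

end Pool.Agent.W831.HI
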