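import Pool.Agent.W831.HI.Eight
import Pool.Agent.W831.HI.Flow8c

set_option autoImplicit false
set_option linter.unusedSectionVars false

/-!
Every circuit `C` of a bridgeless graph: eight even sets covering every edge of `C` exactly twice
and every other edge exactly four times.
-/

open Finset Matrix

namespace Pool.Agent.W831.HI

open Pool.Agent.Helper347.Sab
open Pool.Agent.Helper998.Near (Rch join rch_symm)
open Pool.Agent.Helper879.ECD (IsFlow cn f2_add_self)

variable {V E : Type} [Fintype V] [DecidableEq V] [Fintype E] [DecidableEq E]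

/-- completion of an edge set inside a circuit -/
theorem circ_complete (G : MGraph V E) (C M : Finset E) (hC : IsCircuit G C)
    (hCM : Disjoint C M) (hM : ∀ v, dg G C v = 0 → Even (dg G M v)) :
    ∃ J ⊆ C, Ev G (M ∪ J) := by
  obtain ⟨e0, he0⟩ := hC.1
  obtain ⟨p0, p1, hp01, hends0⟩ := exists_ends G e0
  have hp0 : dg G C p0 = 2 := (hC.2.1 p0).resolve_left (by
    have := dg_pos_of_mem (G := G) he0 (show p0 ∈ G.ends e0 by rw [hends0]; simp); omega)
  obtain ⟨J, hJC, hJ⟩ := Pool.Agent.Helper998.Near.join G C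
    (fun v => ((dg G M v : ℕ) : ZMod 2)) (fun _ => p0) (by
    intro v hv
    apply Pool.Agent.Helper998.Near.circ_reach G C hC v p0 _ hp0
    rcases hC.2.1 v with h | h
    · exact absurd ((Pool.Agent.Helper998.Near.even_iff_cast _).1 (hM v h)) hv
    · exact h)
  have hJ' : ∀ x, ((dg G J x : ℕ) : ZMod 2) = ((dg G M x : ℕ) : ZMod 2) := by
    intro x
    rw [hJ x]
    have h1 : ∑ v, ((dg G M v : ℕ) : ZMod 2) = 0 := by
      rw [← Nat.cast_sum]
      exact (Pool.Agent.Helper998.Near.even_iff_cast _).1 (handshake G M)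
    by_cases hx : x = p0
    · simp [hx, h1]
    · simp [hx]
  refine ⟨J, hJC, fun v => ?_⟩
  have h1 := dg_sdiff (G := G) (X := M ∪ J) (Y := M) subset_union_left v
  have h3 : (M ∪ J) \ M = J := by
    rw [union_sdiff_left]
    exact sdiff_eq_self_of_disjoint (disjoint_of_subset_left hJC hCM)
  rw [h3] at h1
  rw [Pool.Agent.Helper998.Near.even_iff_cast, ← h1, Nat.cast_add, hJ' v]
  exact CharTwo.add_self_eq_zero _

/-- degree parity as a sum over the edges -/
theorem dg_cast (G : MGraph V E) (X : Finset E) (v : V) :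
    ((dg G X v : ℕ) : ZMod 2) = ∑ e, if v ∈ G.ends e then (if e ∈ X then 1 else 0) else 0 := by
  unfold dg
  have h1 : (X.filter fun e => v ∈ G.ends e) = univ.filter fun e => v ∈ G.ends e ∧ e ∈ X := by
    ext e; simp [and_comm]
  rw [h1, card_filter, Nat.cast_sum]
  refine sum_congr rfl fun e _ => ?_
  by_cases h2 : v ∈ G.ends e <;> by_cases h3 : e ∈ X <;> simp [h2, h3]

/-- an even set meets every cut in an even number of edges -/
theorem ev_cut (G : MGraph V E) (al be : E → V) (hab : ∀ e, al e ≠ be e)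
    (hends : ∀ e, G.ends e = s(al e, be e)) (Y : Finset E) (hY : Ev G Y) (X : Finset V) :
    ((cn al be Y X : ℕ) : ZMod 2) = 0 := by
  have h1 : ∀ v ∈ X, ((dg G Y v : ℕ) : ZMod 2) = 0 := fun v _ =>
    (Pool.Agent.Helper998.Near.even_iff_cast _).1 (hY v)
  have h2 : ∑ v ∈ X, ((dg G Y v : ℕ) : ZMod 2) = 0 := sum_eq_zero h1
  rw [← h2]
  simp only [dg_cast]
  rw [sum_comm]
  unfold cn
  rw [card_filter, Nat.cast_sum]
  have h3 : ∑ e ∈ Y, (((if ¬ (al e ∈ X ↔ be e ∈ X) then 1 else 0 : ℕ)) : ZMod 2) =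
      ∑ e, if e ∈ Y then (if ¬ (al e ∈ X ↔ be e ∈ X) then (1 : ZMod 2) else 0) else 0 := by
    rw [← sum_filter]
    have h5 : (univ.filter fun e => e ∈ Y) = Y := by ext e; simp
    rw [h5]
    refine sum_congr rfl fun e _ => ?_
    split_ifs <;> simp
  rw [h3]
  refine sum_congr rfl fun e _ => ?_
  by_cases heY : e ∈ Y
  · simp only [if_pos heY]
    have h4 : ∀ v, (if v ∈ G.ends e then (1 : ZMod 2) else 0) =
        (if v = al e then 1 else 0) + (if v = be e then 1 else 0) := by
      intro v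
      have hm : v ∈ G.ends e ↔ v = al e ∨ v = be e := by rw [hends e, Sym2.mem_iff]
      by_cases h5 : v = al e
      · have h6 : v ≠ be e := fun h => hab e (h5.symm.trans h)
        rw [if_pos (hm.2 (Or.inl h5)), if_pos h5, if_neg h6, add_zero]
      · by_cases h6 : v = be e
        · rw [if_pos (hm.2 (Or.inr h6)), if_neg h5, if_pos h6, zero_add]
        · rw [if_neg (fun h => (hm.1 h).elim h5 h6), if_neg h5, if_neg h6, add_zero]
    simp only [h4]
    rw [sum_add_distrib, sum_ite_eq', sum_ite_eq']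
    by_cases h5 : al e ∈ X <;> by_cases h6 : be e ∈ X <;> simp [h5, h6]
    decide
  · simp [heY]

/-- The main theorem: every circuit `C` of a graph in which every edge lies in an even set. -/
theorem eight_circuit (G : MGraph V E) (C : Finset E) (hC : IsCircuit G C)
    (hb : ∀ e, ∃ X, Ev G X ∧ e ∈ X) :
    ∃ X : Fin 8 → Finset E, (∀ i, Ev G (X i)) ∧
      ∀ e, (univ.filter fun i => e ∈ X i).card = if e ∈ C then 2 else 4 := by
  classical
  have hends' : ∀ e, ∃ u v, u ≠ v ∧ G.ends e = s(u, v) := fun e => exists_ends G e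
  choose al be hab hends using hends'
  obtain ⟨e0, he0⟩ := hC.1
  have hp0m : al e0 ∈ G.ends e0 := by rw [hends e0]; simp
  obtain ⟨p0, hp0⟩ : ∃ p0, dg G C p0 = 2 := ⟨al e0, (hC.2.1 _).resolve_left (by
    have := dg_pos_of_mem (G := G) he0 hp0m; omega)⟩
  let κ : V → V := fun v => if dg G C v = 2 then p0 else v
  have hκ0 : κ p0 = p0 := by simp [κ]
  have hκ2 : ∀ v, dg G C v = 2 → κ v = p0 := fun v hv => by simp [κ, hv]
  have hκv : ∀ u v, dg G C v = 0 → (κ u = v ↔ u = v) := by
    intro u v hv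
    by_cases hu : dg G C u = 2
    · rw [hκ2 u hu]
      constructor
      · intro h; rw [h] at hp0; omega
      · intro h; rw [h] at hu; omega
    · simp only [κ, if_neg hu]
  -- no cut with one edge
  have hcut : ∀ X : Finset V, cn (fun e => κ (al e)) (fun e => κ (be e)) univ X ≠ 1 := by
    intro X h
    have h1 : cn (fun e => κ (al e)) (fun e => κ (be e)) univ X =
        cn al be univ (univ.filter (fun w => κ w ∈ X)) := by
      unfold cn
      congr 1
      apply Finset.filter_congr
      intro e _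
      simp
    rw [h1] at h
    unfold cn at h
    obtain ⟨e, he⟩ := Finset.card_eq_one.1 h
    obtain ⟨Y, hY, heY⟩ := hb e
    have h2 := ev_cut G al be hab hends Y hY (univ.filter (fun w => κ w ∈ X))
    have h3 : cn al be Y (univ.filter (fun w => κ w ∈ X)) = 1 := by
      unfold cn
      rw [Finset.card_eq_one]
      refine ⟨e, ?_⟩
      ext f
      have h4 : f ∈ univ.filter (fun e => ¬ (al e ∈ univ.filter (fun w => κ w ∈ X) ↔
          be e ∈ univ.filter (fun w => κ w ∈ X))) ↔ f ∈ ({e} : Finset E) := by rw [he]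
      rw [mem_filter] at h4 ⊢
      constructor
      · rintro ⟨_, h5⟩
        exact h4.1 ⟨mem_univ _, h5⟩
      · intro h5
        refine ⟨?_, (h4.2 h5).2⟩
        rw [mem_singleton.1 h5]
        exact heY
    rw [h3] at h2
    exact absurd h2 (by decide)
  obtain ⟨ψ, hnz, hfl, hz0⟩ := exists_flow8c _ (fun e => κ (al e)) (fun e => κ (be e)) p0 rfl hcut
  -- flow condition at the vertices off C
  have hvert : ∀ (i : Fin 3) (v : V), dg G C v = 0 →
      ∑ e, (if v ∈ G.ends e then ψ i e else 0) = 0 := by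
    intro i v hv
    have h1 := hfl i (fun u => if u = v then 1 else 0)
    refine Eq.trans ?_ h1
    refine sum_congr rfl fun e _ => ?_
    have hm : v ∈ G.ends e ↔ v = al e ∨ v = be e := by rw [hends e, Sym2.mem_iff]
    simp only [hκv _ v hv]
    by_cases h5 : v = al e
    · have h6 : ¬ be e = v := fun h => hab e (h5.symm.trans h.symm)
      rw [if_pos (hm.2 (Or.inl h5)), if_pos h5.symm, if_neg h6, add_zero, mul_one]
    · by_cases h6 : v = be e
      · rw [if_pos (hm.2 (Or.inr h6)), if_neg (fun h => h5 h.symm), if_pos h6.symm, zero_add,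
          mul_one]
      · rw [if_neg (fun h => (hm.1 h).elim h5 h6), if_neg (fun h => h5 h.symm),
          if_neg (fun h => h6 h.symm), add_zero, mul_zero]
  -- ψ 0 vanishes at all edges with an end on C
  have hon : ∀ e v, v ∈ G.ends e → dg G C v = 2 → ψ 0 e = 0 := by
    intro e v hv h2
    apply hz0 e
    rw [hends e, Sym2.mem_iff] at hv
    rcases hv with h | h
    · left; rw [← h]; exact hκ2 v h2
    · right; rw [← h]; exact hκ2 v h2
  obtain ⟨F, hF⟩ : ∃ F : Finset E, ∀ e, e ∈ F ↔ ψ 0 e ≠ 0 :=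
    ⟨univ.filter (fun e => ψ 0 e ≠ 0), by intro e; simp⟩
  have hFe : Ev G F := by
    intro v
    rcases hC.2.1 v with h | h
    · rw [Pool.Agent.Helper998.Near.even_iff_cast, dg_cast]
      refine Eq.trans ?_ (hvert 0 v h)
      refine sum_congr rfl fun e _ => ?_
      by_cases h2 : v ∈ G.ends e
      · rw [if_pos h2, if_pos h2]
        rcases z2_cases (ψ 0 e) with h3 | h3
        · rw [if_neg (fun h4 => (hF e).1 h4 h3), h3]
        · rw [if_pos ((hF e).2 (by rw [h3]; decide)), h3]
      · rw [if_neg h2, if_neg h2]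
    · have h1 : dg G F v = 0 := by
        unfold dg
        rw [card_eq_zero, filter_eq_empty_iff]
        intro e he hv
        exact (hF e).1 he (hon e v hv h)
      rw [h1]
      exact ⟨0, rfl⟩
  have hCF : ∀ e ∈ C, e ∉ F := by
    intro e he hf
    have hm : al e ∈ G.ends e := by rw [hends e]; simp
    have h2 : dg G C (al e) = 2 := (hC.2.1 _).resolve_left (by
      have := dg_pos_of_mem (G := G) he hm; omega)
    exact (hF e).1 hf (hon e _ hm h2)
  have hone : ∀ f, f ∉ C → ∀ u ∈ G.ends f, ∀ v ∈ G.ends f, Rch G (univ \ C) u v := by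
    intro f hfS u hu v hv
    by_cases huv : u = v
    · rw [huv]
    · refine Relation.ReflTransGen.single ⟨f, mem_sdiff.2 ⟨mem_univ _, hfS⟩, ?_⟩
      exact (Sym2.mem_and_mem_iff huv).1 ⟨hu, hv⟩
  have hnotC : ∀ v, dg G C v = 0 → ∀ e, v ∈ G.ends e → e ∉ C := by
    intro v hv e he h
    have := dg_pos_of_mem (G := G) h he
    omega
  refine eight_of_flows G C F hC.2.1 hFe hCF (fun v0 => ?_)
  -- the flows on the bridge of v0
  have hpart : ∀ i : Fin 3, ∃ A : Finset E, Ev G A ∧ ∀ f, f ∉ C →
      (f ∈ A ↔ ψ i f ≠ 0 ∧ ∀ u ∈ G.ends f, Rch G (univ \ C) v0 u) := by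
    intro i
    obtain ⟨M, hM⟩ : ∃ M : Finset E, ∀ f, f ∈ M ↔ f ∉ C ∧ ψ i f ≠ 0 ∧
        ∀ u ∈ G.ends f, Rch G (univ \ C) v0 u :=
      ⟨univ.filter (fun f => f ∉ C ∧ ψ i f ≠ 0 ∧ ∀ u ∈ G.ends f, Rch G (univ \ C) v0 u), by
        intro e; simp⟩
    obtain ⟨J, hJC, hJ⟩ := circ_complete G C M hC (by
      rw [disjoint_left]
      intro e he h
      exact ((hM e).1 h).1 he) (by
      intro v hv
      by_cases hr : Rch G (univ \ C) v0 v
      · rw [Pool.Agent.Helper998.Near.even_iff_cast, dg_cast]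
        refine Eq.trans ?_ (hvert i v hv)
        refine sum_congr rfl fun e _ => ?_
        by_cases h2 : v ∈ G.ends e
        · rw [if_pos h2, if_pos h2]
          have heC := hnotC v hv e h2
          rcases z2_cases (ψ i e) with h3 | h3
          · rw [if_neg (fun h4 => ((hM e).1 h4).2.1 h3), h3]
          · rw [if_pos, h3]
            rw [hM]
            refine ⟨heC, by rw [h3]; decide, fun u hu => hr.trans (hone e heC v h2 u hu)⟩
        · rw [if_neg h2, if_neg h2]
      · have h1 : dg G M v = 0 := by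
          unfold dg
          rw [card_eq_zero, filter_eq_empty_iff]
          intro e he hv'
          exact hr (((hM e).1 he).2.2 v hv')
        rw [h1]
        exact ⟨0, rfl⟩)
    refine ⟨M ∪ J, hJ, fun f hf => ?_⟩
    rw [mem_union, hM]
    constructor
    · rintro (h | h)
      · exact h.2
      · exact absurd (hJC h) hf
    · intro h
      exact Or.inl ⟨hf, h⟩
  obtain ⟨A, hA, hA'⟩ := hpart 1
  obtain ⟨B, hB, hB'⟩ := hpart 2
  refine ⟨A, B, hA, hB, ?_, ?_⟩
  · intro f hf h
    rcases h with h | h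
    · exact ((hA' f hf).1 h).2
    · exact ((hB' f hf).1 h).2
  · intro f hf hfF hr
    rcases hnz f with h | h | h
    · exact absurd ((hF f).2 h) hfF
    · exact Or.inl ((hA' f hf).2 ⟨h, hr⟩)
    · exact Or.inr ((hB' f hf).2 ⟨h, hr⟩)

end Pool.Agent.W831.HI
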