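import Pool.Agent.W831.HI.Circ
import Pool.Agent.H126R2.CDC.Decomp

set_option autoImplicit false
set_option linter.unusedSectionVars false

/-!
Decomposition of even sets of loopless graphs of arbitrary degrees into circuits, and the circuit
version of the main theorem.
-/

open Finset

namespace Pool.Agent.W831.HI

open Pool.Agent.Helper347.Sab

variable {V E : Type} [Fintype V] [DecidableEq V] [Fintype E] [DecidableEq E]

/-- a loopless multigraph as a multigraph -/
def toM (G : MGraph V E) : Pool.Agent.H126R2.CDC.MGraph V E := ⟨G.ends⟩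

theorem deg_toM (G : MGraph V E) (D : Finset E) (v : V) : (toM G).deg D v = dg G D v := by
  unfold Pool.Agent.H126R2.CDC.MGraph.deg dg
  have h1 : (D.filter fun e => (toM G).ends e = s(v, v)) = ∅ := by
    rw [filter_eq_empty_iff]
    intro e _ h
    apply G.loopless e
    have h2 : G.ends e = s(v, v) := h
    rw [h2]
    exact Sym2.mk_isDiag_iff.2 rfl
  rw [h1, card_empty, add_zero]
  rfl

theorem circ_toM (G : MGraph V E) (C : Finset E) : (toM G).IsCircuit C ↔ IsCircuit G C := by
  unfold Pool.Agent.H126R2.CDC.MGraph.IsCircuit IsCircuit Touch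
  simp only [deg_toM]
  rfl

/-- every even edge set is a disjoint union of circuits -/
theorem decompose_ev (G : MGraph V E) (D : Finset E) (hD : Ev G D) :
    ∃ F : Multiset (Finset E), (∀ X ∈ F, IsCircuit G X) ∧
      ∀ e, F.countP (fun X => e ∈ X) = if e ∈ D then 1 else 0 := by
  obtain ⟨F, h1, h2⟩ := (toM G).decompose _ D rfl (fun v => by rw [deg_toM]; exact hD v)
  exact ⟨F, fun X hX => (circ_toM G X).1 (h1 X hX), h2⟩

theorem countP_sum {ι : Type} (s : Finset ι) (F : ι → Multiset (Finset E)) (e : E) :
    (∑ i ∈ s, F i).countP (fun X => e ∈ X) = ∑ i ∈ s, (F i).countP (fun X => e ∈ X) := by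
  classical
  induction s using Finset.induction_on with
  | empty => simp
  | insert c s hc ih => rw [Finset.sum_insert hc, Finset.sum_insert hc, Multiset.countP_add, ih]

/-- the circuit version -/
theorem quad_circuit (G : MGraph V E) (C : Finset E) (hC : IsCircuit G C)
    (hb : ∀ e, ∃ X, IsCircuit G X ∧ e ∈ X) :
    ∃ F : Fin 8 → Multiset (Finset E), (∀ i, ∀ X ∈ F i, IsCircuit G X) ∧
      (∀ i e, (F i).countP (fun X => e ∈ X) ≤ 1) ∧
      ∀ e, (∑ i, F i).countP (fun X => e ∈ X) = if e ∈ C then 2 else 4 := by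
  obtain ⟨X, hX, hcov⟩ := eight_circuit G C hC (fun e => by
    obtain ⟨Y, hY, heY⟩ := hb e
    refine ⟨Y, fun v => ?_, heY⟩
    rcases hY.2.1 v with h | h <;> rw [h] <;> decide)
  choose F hF1 hF2 using fun i => decompose_ev G (X i) (hX i)
  refine ⟨F, hF1, ?_, ?_⟩
  · intro i e
    rw [hF2]
    split_ifs <;> omega
  · intro e
    rw [countP_sum, ← hcov e, card_filter]
    exact sum_congr rfl fun i _ => hF2 i e

end Pool.Agent.W831.HI
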