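import Pool.Agent.W831.HI.Scale
import Pool.Agent.H164R2.Strong

set_option autoImplicit false
set_option linter.unusedSectionVars false

/-!
Eight even sets covering a two-regular subgraph exactly twice and every other edge exactly four
times.
-/

open Finset Matrix

namespace Pool.Agent.W831.HI

open Pool.Agent.Helper347.Sab
open Pool.Agent.H164R2 (bd bd_split even_iff_castK zero_count two_edges sq_sum two0 solve bd_ind)
open Pool.Agent.Helper998.Near (Rch join rch_symm)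

variable {V E : Type} [Fintype V] [DecidableEq V] [Fintype E] [DecidableEq E]

theorem ev_of_hom {K : Type} [Field K] [Fintype K] [DecidableEq K] [CharP K 2]
    (G : MGraph V E) (a : E → K) (ha : ∀ v, bd G a v = 0) (r : K →+ ZMod 2) :
    Ev G (univ.filter fun e => r (a e) ≠ 0) := by
  intro v
  rw [Pool.Agent.Helper998.Near.even_iff_cast]
  have h1 : r (bd G a v) = 0 := by rw [ha v, map_zero]
  unfold bd at h1
  rw [map_sum] at h1
  unfold dg
  rw [card_filter, Nat.cast_sum, sum_filter]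
  refine Eq.trans (sum_congr rfl fun e _ => ?_) h1
  by_cases h2 : v ∈ G.ends e
  · simp only [h2, if_true]
    rcases z2_cases (r (a e)) with h | h
    · simp [h]
    · simp [h]
  · simp [h2]

theorem eight_count (s a b d f : Prop) [Decidable s] [Decidable a] [Decidable b]
    [Decidable d] [Decidable f] (c1 : s → (d ↔ (¬ a ∧ ¬ b))) (c2 : s → ¬ f)
    (c3 : ¬ s → ¬ a → ¬ b → f) :
    (if d then 1 else 0) +
    (if (((s ∧ ¬ d) ∨ (d ∧ ¬ s)) ∧ ¬ a) ∨ (a ∧ ¬ ((s ∧ ¬ d) ∨ (d ∧ ¬ s))) then 1 else 0) +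
    (if (((s ∧ ¬ d) ∨ (d ∧ ¬ s)) ∧ ¬ b) ∨ (b ∧ ¬ ((s ∧ ¬ d) ∨ (d ∧ ¬ s))) then 1 else 0) +
    (if (((s ∧ ¬ d) ∨ (d ∧ ¬ s)) ∧ ¬ ((a ∧ ¬ b) ∨ (b ∧ ¬ a))) ∨
        (((a ∧ ¬ b) ∨ (b ∧ ¬ a)) ∧ ¬ ((s ∧ ¬ d) ∨ (d ∧ ¬ s))) then 1 else 0) +
    (if (f ∧ ¬ d) ∨ (d ∧ ¬ f) then 1 else 0) +
    (if (f ∧ ¬ ((((s ∧ ¬ d) ∨ (d ∧ ¬ s)) ∧ ¬ a) ∨ (a ∧ ¬ ((s ∧ ¬ d) ∨ (d ∧ ¬ s))))) ∨
      (((((s ∧ ¬ d) ∨ (d ∧ ¬ s)) ∧ ¬ a) ∨ (a ∧ ¬ ((s ∧ ¬ d) ∨ (d ∧ ¬ s)))) ∧ ¬ f)
      then 1 else 0) +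
    (if (f ∧ ¬ ((((s ∧ ¬ d) ∨ (d ∧ ¬ s)) ∧ ¬ b) ∨ (b ∧ ¬ ((s ∧ ¬ d) ∨ (d ∧ ¬ s))))) ∨
      (((((s ∧ ¬ d) ∨ (d ∧ ¬ s)) ∧ ¬ b) ∨ (b ∧ ¬ ((s ∧ ¬ d) ∨ (d ∧ ¬ s)))) ∧ ¬ f)
      then 1 else 0) +
    (if (f ∧ ¬ ((((s ∧ ¬ d) ∨ (d ∧ ¬ s)) ∧ ¬ ((a ∧ ¬ b) ∨ (b ∧ ¬ a))) ∨
        (((a ∧ ¬ b) ∨ (b ∧ ¬ a)) ∧ ¬ ((s ∧ ¬ d) ∨ (d ∧ ¬ s))))) ∨
      (((((s ∧ ¬ d) ∨ (d ∧ ¬ s)) ∧ ¬ ((a ∧ ¬ b) ∨ (b ∧ ¬ a))) ∨
        (((a ∧ ¬ b) ∨ (b ∧ ¬ a)) ∧ ¬ ((s ∧ ¬ d) ∨ (d ∧ ¬ s)))) ∧ ¬ f)
      then 1 else 0) =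
      if s then 2 else 4 := by
  by_cases h2 : s <;> by_cases h3 : a <;> by_cases h4 : b <;>
    by_cases h5 : d <;> by_cases h6 : f <;> simp_all

/-- eight sets from a flow, an even set tracing its zeros on `S` and an even set containing all
zeros outside `S` -/
theorem eight {K : Type} [Field K] [Fintype K] [DecidableEq K] [CharP K 2]
    (G : MGraph V E) (S D F : Finset E) (hS : Ev G S) (hD : Ev G D) (hF : Ev G F)
    (hSF : ∀ e ∈ S, e ∉ F)
    (p q : K →+ ZMod 2) (hpq : ∀ x, p x = 0 → q x = 0 → x = 0)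
    (a : E → K) (ha : ∀ v, bd G a v = 0)
    (hz : ∀ e, e ∉ S → a e = 0 → e ∈ F) (hDS : ∀ e ∈ S, (e ∈ D ↔ a e = 0)) :
    ∃ X : Fin 8 → Finset E, (∀ i, Ev G (X i)) ∧
      ∀ e, (univ.filter fun i => e ∈ X i).card = if e ∈ S then 2 else 4 := by
  classical
  obtain ⟨A, hA⟩ : ∃ A : Finset E, A = univ.filter fun e => p (a e) ≠ 0 := ⟨_, rfl⟩
  obtain ⟨B, hB⟩ : ∃ B : Finset E, B = univ.filter fun e => q (a e) ≠ 0 := ⟨_, rfl⟩
  have hAe : Ev G A := by rw [hA]; exact ev_of_hom G a ha p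
  have hBe : Ev G B := by rw [hB]; exact ev_of_hom G a ha q
  have hAB0 : ∀ e, (e ∉ A ∧ e ∉ B) ↔ a e = 0 := by
    intro e
    rw [hA, hB, mem_filter, mem_filter]
    simp only [mem_univ, true_and, not_not, ne_eq]
    constructor
    · rintro ⟨h1, h2⟩
      exact hpq _ h1 h2
    · intro h
      rw [h, map_zero, map_zero]
      exact ⟨rfl, rfl⟩
  have hSD := ev_symmDiff hS hD
  have hAB := ev_symmDiff hAe hBe
  have e1 := ev_symmDiff hSD hAe
  have e2 := ev_symmDiff hSD hBe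
  have e3 := ev_symmDiff hSD hAB
  refine ⟨![D, symmDiff (symmDiff S D) A, symmDiff (symmDiff S D) B,
    symmDiff (symmDiff S D) (symmDiff A B), symmDiff F D,
    symmDiff F (symmDiff (symmDiff S D) A), symmDiff F (symmDiff (symmDiff S D) B),
    symmDiff F (symmDiff (symmDiff S D) (symmDiff A B))], ?_, ?_⟩
  · intro i
    fin_cases i
    · exact hD
    · exact e1
    · exact e2
    · exact e3
    · exact ev_symmDiff hF hD
    · exact ev_symmDiff hF e1
    · exact ev_symmDiff hF e2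
    · exact ev_symmDiff hF e3
  · intro e
    rw [card_filter, Fin.sum_univ_eight]
    have h := eight_count (e ∈ S) (e ∈ A) (e ∈ B) (e ∈ D) (e ∈ F)
      (fun h => by rw [hAB0 e]; exact hDS e h) (hSF e)
      (fun h1 h2 h3 => hz e h1 ((hAB0 e).1 ⟨h2, h3⟩))
    simp only [Matrix.cons_val, mem_symmDiff]
    exact h

/-- the field with four elements with the two coordinate maps -/
theorem exists_field : ∃ (K : Type) (_ : Field K) (_ : Fintype K) (_ : DecidableEq K)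
    (_ : CharP K 2), (∀ x : K, x ^ 4 = x) ∧ (∃ w : K, w ≠ 0 ∧ w ≠ 1 ∧ (1 : K) + w ≠ 0) ∧
      ∃ p q : K →+ ZMod 2, ∀ x, p x = 0 → q x = 0 → x = 0 := by
  classical
  let _inst : Fintype (GaloisField 2 2) := Fintype.ofFinite _
  have hcard : Fintype.card (GaloisField 2 2) = 4 := by
    rw [← Nat.card_eq_fintype_card, GaloisField.card 2 2 (by norm_num)]
    norm_num
  have h4 : ∀ x : GaloisField 2 2, x ^ 4 = x := by
    intro x
    have := FiniteField.pow_card x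
    rwa [hcard] at this
  obtain ⟨w, hw⟩ : ∃ w : GaloisField 2 2, w ∉ ({0, 1} : Finset (GaloisField 2 2)) := by
    by_contra hcon
    push Not at hcon
    have h1 : (univ : Finset (GaloisField 2 2)) ⊆ {0, 1} := fun x _ => hcon x
    have h2 := card_le_card h1
    rw [card_univ, hcard] at h2
    have h3 : ({0, 1} : Finset (GaloisField 2 2)).card ≤ 2 := card_le_two
    omega
  rw [mem_insert, mem_singleton, not_or] at hw
  obtain ⟨hw0, hw1⟩ := hw
  let bas := Module.finBasisOfFinrankEq (ZMod 2) (GaloisField 2 2)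
    (GaloisField.finrank 2 (n := 2) (by norm_num))
  have hpq : ∀ x : GaloisField 2 2, (bas.coord 0).toAddMonoidHom x = 0 →
      (bas.coord 1).toAddMonoidHom x = 0 → x = 0 := by
    intro x h1 h2
    apply bas.ext_elem
    intro i
    rw [map_zero, Finsupp.zero_apply]
    fin_cases i
    · exact h1
    · exact h2
  have hwne : (1 : GaloisField 2 2) + w ≠ 0 := by
    intro h3
    apply hw1
    have h5 := two0 (1 : GaloisField 2 2)
    linear_combination h3 - h5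
  exact ⟨GaloisField 2 2, inferInstance, inferInstance, inferInstance, inferInstance, h4,
    ⟨w, hw0, hw1, hwne⟩, _, _, hpq⟩

/-- Let `S` be a two-regular subgraph and `F` an even edge set disjoint from `S`. If every bridge
of `S` has two even sets (completed along `S`) that cover all its edges outside `F`, then there are
eight even sets covering every edge of `S` exactly twice and every other edge exactly four times. -/
theorem eight_of_flows (G : MGraph V E) (S F : Finset E)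
    (hS : ∀ v, dg G S v = 0 ∨ dg G S v = 2) (hF : Ev G F) (hSF : ∀ e ∈ S, e ∉ F)
    (h : ∀ v : V, ∃ A B : Finset E, Ev G A ∧ Ev G B ∧
      (∀ f, f ∉ S → (f ∈ A ∨ f ∈ B) → ∀ u ∈ G.ends f, Rch G (univ \ S) v u) ∧
      (∀ f, f ∉ S → f ∉ F → (∀ u ∈ G.ends f, Rch G (univ \ S) v u) → f ∈ A ∨ f ∈ B)) :
    ∃ X : Fin 8 → Finset E, (∀ i, Ev G (X i)) ∧
      ∀ e, (univ.filter fun i => e ∈ X i).card = if e ∈ S then 2 else 4 := by
  classical
  obtain ⟨K, _, _, _, _, h4, ⟨w, hw0, hw1, hwne⟩, p, q, hpq⟩ := exists_field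
  let st : Setoid V := ⟨Rch G (univ \ S), ⟨fun _ => Relation.ReflTransGen.refl,
    fun hab => rch_symm G _ _ _ hab, fun hab hbc => hab.trans hbc⟩⟩
  have hrep : ∀ b : Quotient st, ∃ v, (Quotient.mk st v) = b := fun b => Quotient.exists_rep b
  choose rep hrep using hrep
  choose A B hA hB h1 h2 using h
  have hcl : ∀ u v, Quotient.mk st u = Quotient.mk st v ↔ Rch G (univ \ S) u v := by
    intro u v
    exact Quotient.eq
  have hone : ∀ f, f ∉ S → ∀ u ∈ G.ends f, ∀ v ∈ G.ends f, Rch G (univ \ S) u v := by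
    intro f hfS u hu v hv
    by_cases huv : u = v
    · rw [huv]
    · refine Relation.ReflTransGen.single ⟨f, mem_sdiff.2 ⟨mem_univ _, hfS⟩, ?_⟩
      exact (Sym2.mem_and_mem_iff huv).1 ⟨hu, hv⟩
  obtain ⟨x, a, D, hx0, ha, haT, hD, hDS⟩ := scale (K := K) h4 w hw0 hw1 G S hS
    (Quotient.mk st) (fun u v huv => (hcl u v).1 huv)
    (fun b e => (if e ∈ A (rep b) then 1 else 0) + (if e ∈ B (rep b) then w else 0))
    (by
      intro b v
      have h3 := bd_ind (K := K) G _ 1 (hA (rep b)) v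
      have h5 := bd_ind (K := K) G _ w (hB (rep b)) v
      have h7 : bd G (fun e => (if e ∈ A (rep b) then 1 else 0) +
          (if e ∈ B (rep b) then w else 0)) v =
          bd G (fun e => if e ∈ A (rep b) then (1 : K) else 0) v +
          bd G (fun e => if e ∈ B (rep b) then w else 0) v := by
        unfold bd
        rw [← sum_add_distrib]
        refine sum_congr rfl fun e _ => ?_
        by_cases h6 : v ∈ G.ends e <;> simp [h6]
      rw [h7, h3, h5, add_zero])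
    (by
      intro b e heS v hv hvb
      have h3 : ¬ (e ∈ A (rep b) ∨ e ∈ B (rep b)) := by
        intro h5
        apply hvb
        rw [← hrep b]
        exact (hcl _ _).2 (rch_symm G _ _ _ (h1 _ e heS h5 v hv))
      rw [not_or] at h3
      rw [if_neg h3.1, if_neg h3.2, add_zero])
  have hSe : Ev G S := by
    intro v; rcases hS v with h | h <;> rw [h] <;> decide
  refine eight G S D F hSe hD hF hSF p q hpq a ha ?_ hDS
  intro e heS hae
  by_contra heF
  obtain ⟨u, v, _, hends⟩ := exists_ends G e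
  have hu : u ∈ G.ends e := by rw [hends]; simp
  rw [haT e heS u hu] at hae
  have h3 : Rch G (univ \ S) (rep (Quotient.mk st u)) u := (hcl _ _).1 (hrep _)
  have h5 := h2 (rep (Quotient.mk st u)) e heS heF
    (fun v hv => h3.trans (hone e heS u hu v hv))
  rcases mul_eq_zero.1 hae with h8 | h8
  · exact hx0 _ h8
  · by_cases h6 : e ∈ A (rep (Quotient.mk st u)) <;>
      by_cases h7 : e ∈ B (rep (Quotient.mk st u))
    · simp only [h6, h7, if_true] at h8
      exact hwne h8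
    · simp [h6, h7] at h8
    · simp only [h6, h7, if_true, if_false, zero_add] at h8
      exact hw0 h8
    · tauto

end Pool.Agent.W831.HI
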