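import Pool.Agent.W831.HI.Two
import Pool.Agent.W831.ECC.God

set_option autoImplicit false
set_option linter.unusedSectionVars false

/-!
Faithful circuit covers of eulerian admissible weights that are constant on a circuit and constant
off it.
-/

open Finset

namespace Pool.Agent.W831.HI

open Pool.Agent.H126R2.NC (InCone InLat InIntCone)
open Pool.Agent.W831.ECC (cutEdges mem_cutEdges parity_of_eul bridgeless_of_adm rcone_of_cut RCone)
open Pool.Agent.W831.ECC.Gad (CutC Lv)

variable {V E : Type} [Fintype V] [DecidableEq V] [Fintype E] [DecidableEq E]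

theorem goddyn_two (G : LG V E) (C : Finset E) (hC : G.IsCircuit C) (w : E → ℕ)
    (hpos : ∀ e, 0 < w e)
    (heul : ∀ (S : Finset V) (B : Finset E), (∀ f, f ∈ B ↔ f ∈ cutEdges G S) →
      Even (∑ e ∈ B, w e))
    (hadm : ∀ (S : Finset V) (B : Finset E), (∀ f, f ∈ B ↔ f ∈ cutEdges G S) →
      ∀ e ∈ B, 2 * w e ≤ ∑ f ∈ B, w f)
    (hp : ∀ e f, (e ∈ C ↔ f ∈ C) → w e = w f)
    (h : (∀ e ∈ C, ∀ f, w f ≤ 2 * w e) ∨ ∃ v, G.deg univ v = 3 ∧ G.deg C v = 2)
    (hodd : ∀ e ∈ C, ∀ f, w f = 2 * w e → Even (w e)) : InIntCone G w := by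
  classical
  obtain ⟨v, hv⟩ := G.exists_halves
  have hmem : ∀ (S : Finset V) (f : E), f ∈ univ.filter (fun f => Lv v S f) ↔ f ∈ cutEdges G S := by
    intro S f
    rw [mem_cutEdges G v hv]
    simp
  have hadm' : ∀ (S : Finset V) (e : E), Lv v S e →
      2 * w e ≤ ∑ f ∈ univ.filter (fun f => Lv v S f), w f := by
    intro S e he
    exact hadm S _ (hmem S) e (by simp [he])
  have hG := bridgeless_of_adm G v hv w hpos hadm'
  have hodd' := parity_of_eul G v hv w (fun S => heul S _ (hmem S))
  obtain ⟨e0, he0⟩ := hC.1
  by_cases hall : ∀ e, e ∈ C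
  · obtain ⟨F, hF1, hF2⟩ := two_valued G hG C hC (w e0) 0 ⟨0, rfl⟩ (Nat.zero_le _)
      (fun h0 => by have := hpos e0; omega)
    refine ⟨F, hF1, fun e => ?_⟩
    rw [hF2 e, if_pos (hall e)]
    exact hp e0 e (iff_of_true he0 (hall e))
  push Not at hall
  obtain ⟨f0, hf0⟩ := hall
  have hon : ∀ e ∈ C, w e = w e0 := fun e he => hp e e0 (iff_of_true he he0)
  have hoff : ∀ e, e ∉ C → w e = w f0 := fun e he => hp e f0 (iff_of_false he hf0)
  by_cases hb : Even (w f0)
  · have hle : w f0 ≤ 2 * w e0 := by
      rcases h with h | ⟨u, h3, h2⟩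
      · exact h e0 he0 f0
      · have hr : RCone G (fun e => (w e : ℝ)) := by
          apply rcone_of_cut G v hv _ (fun e => Nat.cast_nonneg _)
          intro S e he
          have h4 := hadm' S e he
          have h5 : ∑ f ∈ univ.filter (fun f => Lv v S f), w f =
              w e + ∑ f : E, if f ≠ e ∧ Lv v S f then w f else 0 := by
            rw [← Finset.add_sum_erase _ _ (show e ∈ univ.filter (fun f => Lv v S f) by simp [he]),
              ← Finset.sum_filter]
            congr 1
            apply Finset.sum_congr
            · ext f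
              simp only [Finset.mem_erase, Finset.mem_filter, Finset.mem_univ, true_and]
            · intro _ _; rfl
          have h6 : w e ≤ ∑ f : E, if f ≠ e ∧ Lv v S f then w f else 0 := by omega
          have h7 : ((w e : ℕ) : ℝ) ≤ ((∑ f : E, if f ≠ e ∧ Lv v S f then w f else 0 : ℕ) : ℝ) :=
            Nat.cast_le.2 h6
          refine le_trans h7 (le_of_eq ?_)
          push_cast
          rfl
        exact cone_vertex G C w (w e0) (w f0) hon hoff hr u h3 h2
    obtain ⟨F, hF1, hF2⟩ := two_valued G hG C hC (w e0) (w f0) hb hle (hodd e0 he0 f0)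
    refine ⟨F, hF1, fun e => ?_⟩
    rw [hF2 e]
    by_cases he : e ∈ C
    · rw [if_pos he, hon e he]
    · rw [if_neg he, hoff e he]
  · have hev : G.IsEven (univ \ C) := by
      by_cases ha : Even (w e0)
      · have h1 : (univ.filter fun e => Odd (w e)) = univ \ C := by
          ext e
          simp only [Finset.mem_filter, Finset.mem_univ, true_and, Finset.mem_sdiff]
          constructor
          · intro h1 he
            rw [hon e he] at h1
            exact (Nat.not_even_iff_odd.2 h1) ha
          · intro he
            rw [hoff e he]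
            exact Nat.not_even_iff_odd.1 hb
        rw [← h1]; exact hodd'
      · have h1 : (univ.filter fun e => Odd (w e)) = univ := by
          ext e
          simp only [Finset.mem_filter, Finset.mem_univ, true_and, iff_true]
          by_cases he : e ∈ C
          · rw [hon e he]; exact Nat.not_even_iff_odd.1 ha
          · rw [hoff e he]; exact Nat.not_even_iff_odd.1 hb
        rw [h1] at hodd'
        exact G.isEven_sdiff (Finset.subset_univ _) hC.isEven hodd'
    obtain ⟨F, hF1, hF2⟩ := G.decompose _ (univ \ C) rfl hev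
    refine ⟨w f0 • F + w e0 • ({C} : Multiset (Finset E)), ?_, ?_⟩
    · intro X hX
      rw [Multiset.mem_add] at hX
      rcases hX with h1 | h1
      · exact hF1 X (Multiset.mem_of_mem_nsmul h1)
      · have := Multiset.mem_of_mem_nsmul h1
        rw [Multiset.mem_singleton] at this
        rw [this]; exact hC
    · intro e
      rw [Multiset.countP_add, Multiset.countP_nsmul, Multiset.countP_nsmul, hF2, countP_one]
      by_cases he : e ∈ C
      · rw [if_pos he, if_neg (by simp [he]), hon e he]; ring
      · rw [if_neg he, if_pos (by simp [he]), hoff e he]; ring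

end Pool.Agent.W831.HI
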