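import Pool.Agent.W831.HI.Dec
import Pool.Agent.H126R2.CDC.Main

set_option autoImplicit false
set_option linter.unusedSectionVars false

/-!
The main theorem for graphs with loops, and faithful circuit covers of two-valued weightings.
-/

open Finset

namespace Pool.Agent.W831.HI

/-- graphs with loops and parallel edges -/
abbrev LG := Pool.Agent.H126R2.CDC.MGraph

variable {V E : Type} [Fintype V] [DecidableEq V] [Fintype E] [DecidableEq E]

/-- the edges that are not loops -/
abbrev NL (G : LG V E) : Type := {e : E // ¬ (G.ends e).IsDiag}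

/-- the graph without its loops -/
def core (G : LG V E) : Pool.Agent.Helper347.Sab.MGraph V (NL G) := ⟨fun e => G.ends e.1, fun e => e.2⟩

/-- edge sets of the core as edge sets of the graph -/
def up (G : LG V E) (X : Finset (NL G)) : Finset E := X.map (Function.Embedding.subtype _)

theorem mem_up (G : LG V E) (X : Finset (NL G)) (e : NL G) : e.1 ∈ up G X ↔ e ∈ X := by
  unfold up
  rw [Finset.mem_map]
  constructor
  · rintro ⟨f, hf, h⟩
    have : f = e := Subtype.ext h
    rw [← this]; exact hf
  · intro h; exact ⟨e, h, rfl⟩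

theorem not_diag_of_mem_up (G : LG V E) (X : Finset (NL G)) (e : E) (h : e ∈ up G X) :
    ¬ (G.ends e).IsDiag := by
  unfold up at h
  rw [Finset.mem_map] at h
  obtain ⟨f, _, h⟩ := h
  rw [← h]
  exact f.2

theorem deg_up (G : LG V E) (X : Finset (NL G)) (v : V) :
    G.deg (up G X) v = Pool.Agent.Helper347.Sab.dg (core G) X v := by
  unfold Pool.Agent.H126R2.CDC.MGraph.deg Pool.Agent.Helper347.Sab.dg
  have h1 : ((up G X).filter fun e => G.ends e = s(v, v)) = ∅ := by
    rw [filter_eq_empty_iff]
    intro e he h
    apply not_diag_of_mem_up G X e he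
    rw [h]
    exact Sym2.mk_isDiag_iff.2 rfl
  rw [h1, card_empty, add_zero]
  unfold up
  rw [Finset.filter_map, Finset.card_map]
  rfl

/-- the edges of the core in an edge set -/
def dn (G : LG V E) (D : Finset E) : Finset (NL G) := univ.filter fun e => e.1 ∈ D

theorem mem_dn (G : LG V E) (D : Finset E) (e : NL G) : e ∈ dn G D ↔ e.1 ∈ D := by
  unfold dn; simp

theorem up_dn (G : LG V E) (D : Finset E) : up G (dn G D) = D.filter fun e => ¬ (G.ends e).IsDiag := by
  ext e
  rw [mem_filter]
  constructor
  · intro h
    have h1 := not_diag_of_mem_up G _ e h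
    exact ⟨(mem_dn G D ⟨e, h1⟩).1 ((mem_up G _ ⟨e, h1⟩).1 h), h1⟩
  · rintro ⟨h, h1⟩
    exact (mem_up G _ ⟨e, h1⟩).2 ((mem_dn G D ⟨e, h1⟩).2 h)

theorem deg_union (G : LG V E) {A B : Finset E} (h : Disjoint A B) (v : V) :
    G.deg (A ∪ B) v = G.deg A v + G.deg B v := by
  rw [G.deg_eq_sum, G.deg_eq_sum, G.deg_eq_sum, Finset.sum_union h]

theorem even_loops (G : LG V E) (L : Finset E) (hL : ∀ e ∈ L, (G.ends e).IsDiag) (v : V) :
    Even (G.deg L v) := by
  rw [G.deg_eq_sum]
  refine Finset.even_sum _ fun e he => ?_
  unfold Pool.Agent.H126R2.CDC.MGraph.ep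
  have hd := hL e he
  induction h : G.ends e using Sym2.ind with
  | _ x y =>
    rw [h] at hd
    have hxy : x = y := Sym2.mk_isDiag_iff.1 hd
    subst hxy
    by_cases hv : v = x
    · subst hv; simp
    · have h2 : ¬ s(x, x) = s(v, v) := by
        intro h3
        rw [Sym2.eq_iff] at h3
        rcases h3 with ⟨h3, _⟩ | ⟨h3, _⟩ <;> exact hv h3.symm
      rw [if_neg h2, if_neg]
      · exact ⟨0, rfl⟩
      · rw [Sym2.mem_iff]; tauto

theorem ev_dn (G : LG V E) (D : Finset E) (hD : G.IsEven D) :
    Pool.Agent.Helper347.Sab.Ev (core G) (dn G D) := by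
  intro v
  rw [← deg_up, up_dn]
  have h1 : D = (D.filter fun e => ¬ (G.ends e).IsDiag) ∪ (D.filter fun e => (G.ends e).IsDiag) := by
    ext e; rw [mem_union, mem_filter, mem_filter]; tauto
  have h2 : Disjoint (D.filter fun e => ¬ (G.ends e).IsDiag)
      (D.filter fun e => (G.ends e).IsDiag) := by
    rw [disjoint_left]
    intro e he hf
    exact (mem_filter.1 he).2 (mem_filter.1 hf).2
  have h3 := hD v
  rw [h1, deg_union G h2 v] at h3
  have h4 := even_loops G (D.filter fun e => (G.ends e).IsDiag)
    (fun e he => (mem_filter.1 he).2) v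
  exact (Nat.even_add.1 h3).2 h4

/-- a circuit with a loop consists of this loop -/
theorem circuit_loop (G : LG V E) (C : Finset E) (hC : G.IsCircuit C) (e : E) (he : e ∈ C)
    (hd : (G.ends e).IsDiag) : C = {e} := by
  obtain ⟨v, hv⟩ : ∃ v, G.ends e = s(v, v) := by
    induction h : G.ends e using Sym2.ind with
    | _ x y =>
      rw [h] at hd
      have hxy : x = y := Sym2.mk_isDiag_iff.1 hd
      subst hxy
      exact ⟨x, rfl⟩
  have hone : ∀ f ∈ C, v ∈ G.ends f → f = e := by
    intro f hf hvf
    by_contra hne
    have h1 : G.deg {e} v + G.deg (C \ {e}) v = G.deg C v := by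
      have := G.deg_sdiff (singleton_subset_iff.2 he) v
      omega
    have h2 : G.deg {e} v = 2 := by
      rw [G.deg_eq_sum, Finset.sum_singleton]
      unfold Pool.Agent.H126R2.CDC.MGraph.ep
      rw [hv]; simp
    have h3 : 0 < G.deg (C \ {e}) v := by
      unfold Pool.Agent.H126R2.CDC.MGraph.deg
      have : 0 < ((C \ {e}).filter fun e => v ∈ G.ends e).card := by
        rw [card_pos]
        exact ⟨f, mem_filter.2 ⟨mem_sdiff.2 ⟨hf, by rwa [mem_singleton]⟩, hvf⟩⟩
      omega
    rcases hC.2.1 v with h | h <;> omega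
  ext f
  rw [mem_singleton]
  constructor
  · intro hf
    have h1 := hC.2.2 e he f hf
    clear hf
    induction h1 with
    | refl => rfl
    | tail _ h2 ih =>
      obtain ⟨h3, u, hu1, hu2⟩ := h2
      rw [ih, hv] at hu1
      have : u = v := by
        rw [Sym2.mem_iff] at hu1; tauto
      rw [this] at hu2
      exact hone _ h3 hu2
  · intro h; rw [h]; exact he

/-- The main theorem for graphs with loops and circuits that are not loops. -/
theorem eight_loops (G : LG V E) (hG : ∀ e, ∃ D, G.IsEven D ∧ e ∈ D) (C : Finset E)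
    (hC : G.IsCircuit C) (hnl : ∀ e ∈ C, ¬ (G.ends e).IsDiag) :
    ∃ X : Fin 8 → Finset E, (∀ i, G.IsEven (X i)) ∧
      ∀ e, (univ.filter fun i => e ∈ X i).card = if e ∈ C then 2 else 4 := by
  classical
  have hup : up G (dn G C) = C := by
    rw [up_dn]
    ext e
    rw [mem_filter]
    exact ⟨fun h => h.1, fun h => ⟨h, hnl e h⟩⟩
  have hC' : Pool.Agent.Helper347.Sab.IsCircuit (core G) (dn G C) := by
    refine ⟨?_, ?_, ?_⟩
    · obtain ⟨e, he⟩ := hC.1
      exact ⟨⟨e, hnl e he⟩, (mem_dn G C ⟨e, hnl e he⟩).2 he⟩
    · intro v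
      rw [← deg_up, hup]
      exact hC.2.1 v
    · intro e he f hf
      have key : ∀ g : E, Relation.ReflTransGen
          (fun a b => b ∈ C ∧ ∃ v, v ∈ G.ends a ∧ v ∈ G.ends b) e.1 g → ∀ hg : ¬ (G.ends g).IsDiag,
          Relation.ReflTransGen (fun a b => b ∈ dn G C ∧
            Pool.Agent.Helper347.Sab.Touch (core G) a b) e ⟨g, hg⟩ := by
        intro g h
        induction h with
        | refl => intro hg; exact Relation.ReflTransGen.refl
        | @tail b c h1 h2 ih =>
          intro hg
          have hb : ¬ (G.ends b).IsDiag := by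
            rcases Relation.ReflTransGen.cases_tail h1 with h3 | ⟨d, _, h3⟩
            · rw [h3]; exact e.2
            · exact hnl b h3.1
          refine (ih hb).tail ⟨(mem_dn G C ⟨c, hg⟩).2 h2.1, ?_⟩
          exact h2.2
      exact key f.1 (hC.2.2 e.1 ((mem_dn G C e).1 he) f.1 ((mem_dn G C f).1 hf)) f.2
  obtain ⟨X, hX, hcov⟩ := eight_circuit (core G) (dn G C) hC' (fun e => by
    obtain ⟨D, hD, he⟩ := hG e.1
    exact ⟨dn G D, ev_dn G D hD, (mem_dn G D e).2 he⟩)
  obtain ⟨L, hL⟩ : ∃ L : Finset E, ∀ e, e ∈ L ↔ (G.ends e).IsDiag :=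
    ⟨univ.filter fun e => (G.ends e).IsDiag, by intro e; simp⟩
  refine ⟨fun i => up G (X i) ∪ (if i.val < 4 then L else ∅), ?_, ?_⟩
  · intro i v
    have hd : Disjoint (up G (X i)) (if i.val < 4 then L else ∅) := by
      rw [disjoint_left]
      intro e he h
      split_ifs at h
      · exact not_diag_of_mem_up G _ e he ((hL e).1 h)
      · exact absurd h (by simp)
    rw [deg_union G hd v, deg_up]
    refine (hX i v).add ?_
    apply even_loops G
    intro e he
    split_ifs at he
    · exact (hL e).1 he
    · exact absurd he (by simp)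
  · intro e
    by_cases he : (G.ends e).IsDiag
    · have heC : e ∉ C := fun h => hnl e h he
      rw [if_neg heC]
      have h1 : (univ.filter fun i : Fin 8 => e ∈ up G (X i) ∪ (if i.val < 4 then L else ∅)) =
          univ.filter fun i : Fin 8 => i.val < 4 := by
        ext i
        rw [mem_filter, mem_filter, mem_union]
        constructor
        · rintro ⟨_, h | h⟩
          · exact absurd he (not_diag_of_mem_up G _ e h)
          · refine ⟨mem_univ _, ?_⟩
            by_contra h2
            rw [if_neg h2] at h
            exact absurd h (by simp)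
        · rintro ⟨_, h⟩
          refine ⟨mem_univ _, Or.inr ?_⟩
          rw [if_pos h]
          exact (hL e).2 he
      rw [h1]
      decide
    · have h1 := hcov ⟨e, he⟩
      have h2 : (univ.filter fun i : Fin 8 => e ∈ up G (X i) ∪ (if i.val < 4 then L else ∅)) =
          univ.filter fun i : Fin 8 => (⟨e, he⟩ : NL G) ∈ X i := by
        ext i
        rw [mem_filter, mem_filter, mem_union]
        constructor
        · rintro ⟨_, h | h⟩
          · exact ⟨mem_univ _, (mem_up G (X i) ⟨e, he⟩).1 h⟩
          · exfalso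
            split_ifs at h
            · exact he ((hL e).1 h)
            · exact absurd h (by simp)
        · rintro ⟨_, h⟩
          exact ⟨mem_univ _, Or.inl ((mem_up G (X i) ⟨e, he⟩).2 h)⟩
      rw [h2, h1]
      simp only [mem_dn]

theorem countP_one (C : Finset E) (e : E) :
    ({C} : Multiset (Finset E)).countP (fun X => e ∈ X) = if e ∈ C then 1 else 0 := by
  rw [← Multiset.cons_zero, Multiset.countP_cons, Multiset.countP_zero, zero_add]

/-- Faithful circuit covers of the weighting equal to `a` on a circuit and `b` elsewhere. -/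
theorem two_valued (G : LG V E) (hG : G.Bridgeless) (C : Finset E) (hC : G.IsCircuit C)
    (a b : ℕ) (hb : Even b) (hab : b ≤ 2 * a) (hodd : b = 2 * a → Even a) :
    ∃ F : Multiset (Finset E), (∀ X ∈ F, G.IsCircuit X) ∧
      ∀ e, F.countP (fun X => e ∈ X) = if e ∈ C then a else b := by
  classical
  obtain ⟨F2, hF2, hF2'⟩ := G.exists_cdc hG
  obtain ⟨c, hc⟩ := hb
  by_cases hl : ∃ e ∈ C, (G.ends e).IsDiag
  · obtain ⟨e0, he0, hd⟩ := hl
    have hCe := circuit_loop G C hC e0 he0 hd
    refine ⟨c • F2.filter (fun X => e0 ∉ X) + a • ({C} : Multiset (Finset E)), ?_, ?_⟩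
    · intro X hX
      rw [Multiset.mem_add] at hX
      rcases hX with h | h
      · exact hF2 X (Multiset.mem_filter.1 (Multiset.mem_of_mem_nsmul h)).1
      · have := Multiset.mem_of_mem_nsmul h
        rw [Multiset.mem_singleton] at this
        rw [this]; exact hC
    · intro e
      rw [Multiset.countP_add, Multiset.countP_nsmul, Multiset.countP_nsmul,
        Multiset.countP_filter]
      by_cases he : e ∈ C
      · have h1 : e = e0 := by rw [hCe, mem_singleton] at he; exact he
        have h2 : F2.countP (fun X => e ∈ X ∧ e0 ∉ X) = 0 := by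
          rw [Multiset.countP_eq_zero]
          intro X _ h
          exact h.2 (h1 ▸ h.1)
        have h3 : ({C} : Multiset (Finset E)).countP (fun X => e ∈ X) = 1 := by
          rw [countP_one, if_pos he]
        rw [h2, h3, if_pos he]
        ring
      · have h2 : F2.countP (fun X => e ∈ X ∧ e0 ∉ X) = F2.countP (fun X => e ∈ X) := by
          apply Multiset.countP_congr rfl
          intro X hX
          simp only [eq_iff_iff, and_iff_left_iff_imp]
          intro heX h0
          have := circuit_loop G X (hF2 X hX) e0 h0 hd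
          rw [this, mem_singleton] at heX
          apply he
          rw [heX]; exact he0
        have h3 : ({C} : Multiset (Finset E)).countP (fun X => e ∈ X) = 0 := by
          rw [countP_one, if_neg he]
        rw [h2, h3, hF2' e, if_neg he]
        omega
  · have hnl : ∀ e ∈ C, ¬ (G.ends e).IsDiag := fun e he h => hl ⟨e, he, h⟩
    obtain ⟨X, hX, hcov⟩ := eight_loops G (fun e => by
      obtain ⟨D, hD, he⟩ := hG e
      exact ⟨D, hD.isEven, he⟩) C hC hnl
    choose F hF1 hF3 using fun i => G.decompose _ (X i) rfl (hX i)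
    have hF4 : ∀ e, (∑ i, F i).countP (fun Y => e ∈ Y) = if e ∈ C then 2 else 4 := by
      intro e
      rw [countP_sum, ← hcov e, card_filter]
      exact sum_congr rfl fun i _ => hF3 i e
    refine ⟨(c % 2) • F2 + (c / 2) • (∑ i, F i) +
      (a - 2 * (c % 2) - 2 * (c / 2)) • ({C} : Multiset (Finset E)), ?_, ?_⟩
    · intro Y hY
      rw [Multiset.mem_add, Multiset.mem_add] at hY
      rcases hY with (h | h) | h
      · exact hF2 Y (Multiset.mem_of_mem_nsmul h)
      · have h1 := Multiset.mem_of_mem_nsmul h
        rw [Multiset.mem_sum] at h1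
        obtain ⟨i, _, h2⟩ := h1
        exact hF1 i Y h2
      · have := Multiset.mem_of_mem_nsmul h
        rw [Multiset.mem_singleton] at this
        rw [this]; exact hC
    · intro e
      rw [Multiset.countP_add, Multiset.countP_add, Multiset.countP_nsmul, Multiset.countP_nsmul,
        Multiset.countP_nsmul, hF4, hF2' e]
      by_cases he : e ∈ C
      · have h3 : ({C} : Multiset (Finset E)).countP (fun X => e ∈ X) = 1 := by
          rw [countP_one, if_pos he]
        rw [h3, if_pos he, if_pos he]
        have h5 : 2 * (c % 2) + 2 * (c / 2) ≤ a := by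
          by_cases h6 : b = 2 * a
          · obtain ⟨r, hr⟩ := hodd h6
            omega
          · omega
        omega
      · have h3 : ({C} : Multiset (Finset E)).countP (fun X => e ∈ X) = 0 := by
          rw [countP_one, if_neg he]
        rw [h3, if_neg he, if_neg he]
        omega

end Pool.Agent.W831.HI
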