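import Pool.Agent.H825R2.EW.PackM
import Pool.Agent.Helper879.ECD.Flow

set_option autoImplicit false
set_option linter.unusedSectionVars false

/-!
The rank condition behind the eight-flow theorem at a prescribed vertex.
-/

namespace Pool.Agent.W831.HI

open Finset
open Pool.Agent.Helper879.ECD (sp Ind sp_mono mem_sp F2 IsFlow inc fnl fnl_single fnl_inc cn
  f2_add_self exists_coeff)

variable {W E : Type} [Fintype W] [DecidableEq W] [Fintype E] [DecidableEq E]

/-- two vertices are equivalent modulo a space of vertex vectors -/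
def rel (S : Submodule F2 (W → F2)) (w v : W) : Prop :=
  (Pi.single w 1 + Pi.single v 1 : W → F2) ∈ S

lemma vself (u : W → F2) : u + u = 0 := by ext w; exact f2_add_self _

lemma rel_refl (S : Submodule F2 (W → F2)) (w : W) : rel S w w := by
  show (Pi.single w 1 + Pi.single w 1 : W → F2) ∈ S
  rw [vself]; exact S.zero_mem

lemma rel_symm {S : Submodule F2 (W → F2)} {w v : W} (h : rel S w v) : rel S v w := by
  show (Pi.single v 1 + Pi.single w 1 : W → F2) ∈ S
  rw [add_comm]; exact h

lemma rel_trans {S : Submodule F2 (W → F2)} {u v w : W} (h1 : rel S u v) (h2 : rel S v w) :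
    rel S u w := by
  have h3 := S.add_mem h1 h2
  have h4 : (Pi.single u 1 + Pi.single v 1 : W → F2) + (Pi.single v 1 + Pi.single w 1) =
      Pi.single u 1 + Pi.single w 1 := by
    rw [show (Pi.single u 1 + Pi.single v 1 : W → F2) + (Pi.single v 1 + Pi.single w 1) =
      Pi.single u 1 + (Pi.single v 1 + Pi.single v 1) + Pi.single w 1 by abel, vself, add_zero]
  rw [h4] at h3
  exact h3

open Classical in
/-- the class of a vertex -/
noncomputable def cls (S : Submodule F2 (W → F2)) (w : W) : Finset W :=
  univ.filter (fun v => rel S w v)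

lemma mem_cls {S : Submodule F2 (W → F2)} {w v : W} : v ∈ cls S w ↔ rel S w v := by
  simp [cls]

lemma self_mem_cls (S : Submodule F2 (W → F2)) (w : W) : w ∈ cls S w :=
  mem_cls.2 (rel_refl S w)

lemma cls_eq {S : Submodule F2 (W → F2)} {w v : W} (h : rel S w v) : cls S w = cls S v := by
  ext u
  rw [mem_cls, mem_cls]
  exact ⟨fun h' => rel_trans (rel_symm h) h', fun h' => rel_trans h h'⟩

lemma cls_eq_iff {S : Submodule F2 (W → F2)} {w v : W} : cls S w = cls S v ↔ rel S w v := by
  refine ⟨fun h => ?_, cls_eq⟩
  have := self_mem_cls S v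
  rw [← h] at this
  exact mem_cls.1 this

open Classical in
/-- all classes -/
noncomputable def parts (S : Submodule F2 (W → F2)) : Finset (Finset W) := univ.image (cls S)

lemma cls_mem_parts (S : Submodule F2 (W → F2)) (w : W) : cls S w ∈ parts S := by
  classical
  exact Finset.mem_image_of_mem _ (Finset.mem_univ _)

lemma parts_uniq {S : Submodule F2 (W → F2)} {X : Finset W} (hX : X ∈ parts S) {w : W}
    (hw : w ∈ X) : X = cls S w := by
  classical
  obtain ⟨v, _, rfl⟩ := Finset.mem_image.1 hX
  exact cls_eq (mem_cls.1 hw)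

lemma mem_iff_cls {S : Submodule F2 (W → F2)} {X : Finset W} (hX : X ∈ parts S) (w : W) :
    w ∈ X ↔ X = cls S w :=
  ⟨fun h => parts_uniq hX h, fun h => by rw [h]; exact self_mem_cls S w⟩

open Classical in
/-- the boundaries of the classes count every edge between classes twice -/
lemma count (a b : E → W) (S : Submodule F2 (W → F2)) (M : Finset E) :
    ∑ X ∈ parts S, cn a b M X = 2 * (M.filter (fun e => ¬ inc a b e ∈ S)).card := by
  simp only [cn, Finset.card_filter, Finset.mul_sum]
  rw [Finset.sum_comm]
  apply Finset.sum_congr rfl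
  intro e _
  by_cases h : inc a b e ∈ S
  · have h0 : cls S (a e) = cls S (b e) := cls_eq h
    have h1 : ∀ X ∈ parts S, (if ¬ (a e ∈ X ↔ b e ∈ X) then 1 else 0) = 0 := by
      intro X hX
      rw [if_neg]
      rw [not_not, mem_iff_cls hX, mem_iff_cls hX, h0]
    rw [Finset.sum_congr rfl h1]
    simp [h]
  · have hne : cls S (a e) ≠ cls S (b e) := fun h2 => h (cls_eq_iff.1 h2)
    have h1 : ∀ X ∈ parts S, (if ¬ (a e ∈ X ↔ b e ∈ X) then 1 else 0) =
        (if X = cls S (a e) then 1 else 0) + (if X = cls S (b e) then 1 else 0) := by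
      intro X hX
      have ha := mem_iff_cls hX (a e)
      have hb := mem_iff_cls hX (b e)
      by_cases h2 : X = cls S (a e)
      · have h3 : ¬ X = cls S (b e) := fun h3 => hne (h2.symm.trans h3)
        rw [if_pos, if_pos h2, if_neg h3]
        tauto
      · by_cases h3 : X = cls S (b e)
        · rw [if_pos, if_neg h2, if_pos h3]
          tauto
        · rw [if_neg, if_neg h2, if_neg h3]
          tauto
    rw [Finset.sum_congr rfl h1, Finset.sum_add_distrib]
    simp [h, cls_mem_parts]

lemma cn_add (a b : E → W) (M N : Finset E) (hd : Disjoint M N) (X : Finset W) :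
    cn a b (M ∪ N) X = cn a b M X + cn a b N X := by
  unfold cn
  rw [Finset.filter_union, Finset.card_union_of_disjoint]
  exact Finset.disjoint_filter_filter hd

open Classical in
/-- The rank condition at a vertex `c`: `L` is the set of the edges at `c`. -/
lemma rank_c (a b : E → W) (c : W) (h3 : ∀ X : Finset W, cn a b univ X = 0 ∨ 3 ≤ cn a b univ X)
    (L : Finset E) (hL : ∀ e, e ∈ L ↔ a e = c ∨ b e = c)
    (S0 S : Submodule F2 (W → F2)) (hle : S0 ≤ S) :
    2 * Module.finrank F2 (sp F2 (inc a b) univ) +
        Module.finrank F2 (sp F2 (inc a b) (univ \ L)) ≤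
      2 * Module.finrank F2 S + Module.finrank F2 S0 +
        (2 * ((univ \ L).filter (fun e => ¬ inc a b e ∈ S0)).card +
          (L.filter (fun e => ¬ inc a b e ∈ S)).card) := by
  -- classes whose vertices are not equivalent to c modulo S
  obtain ⟨P, hP⟩ : ∃ P : Finset (Finset W),
      P = (parts S0).filter (fun X => ∀ w ∈ X, ¬ rel S w c) := ⟨_, rfl⟩
  obtain ⟨Q, hQ⟩ : ∃ Q : Finset (Finset W),
      Q = (parts S0).filter (fun X => ¬ ∀ w ∈ X, ¬ rel S w c) := ⟨_, rfl⟩
  obtain ⟨P1, hP1⟩ : ∃ P1 : Finset (Finset W), P1 = P.filter (fun X => cn a b univ X ≠ 0) :=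
    ⟨_, rfl⟩
  obtain ⟨T0, hT0⟩ : ∃ T0 : Finset (Finset W),
      T0 = (parts S0).filter (fun X => cn a b (univ \ L) X ≠ 0) := ⟨_, rfl⟩
  have hKL : (univ \ L) ∪ L = (univ : Finset E) := by
    ext e; simp
  have hcn : ∀ X, cn a b univ X = cn a b (univ \ L) X + cn a b L X := by
    intro X
    rw [← cn_add a b _ _ Finset.sdiff_disjoint, hKL]
  -- legs
  have hlegs : ∑ X ∈ P, cn a b L X ≤ (L.filter (fun e => ¬ inc a b e ∈ S)).card := by
    simp only [cn, Finset.card_filter]
    rw [Finset.sum_comm]
    apply Finset.sum_le_sum
    intro e he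
    have key : ∀ v, (a e = c ∧ b e = v ∨ b e = c ∧ a e = v) →
        ∑ X ∈ P, (if ¬ (a e ∈ X ↔ b e ∈ X) then 1 else 0) ≤
          if ¬ inc a b e ∈ S then 1 else 0 := by
      intro v hv
      have hcP : ∀ X ∈ P, c ∉ X := by
        intro X hX hc
        rw [hP, Finset.mem_filter] at hX
        exact hX.2 c hc (rel_refl S c)
      have h1 : ∀ X ∈ P, (if ¬ (a e ∈ X ↔ b e ∈ X) then 1 else 0) ≤
          if X = cls S0 v then (if ¬ inc a b e ∈ S then 1 else 0) else 0 := by
        intro X hX
        by_cases h2 : ¬ (a e ∈ X ↔ b e ∈ X)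
        · have hvX : v ∈ X := by
            have hc := hcP X hX
            rcases hv with ⟨h4, h5⟩ | ⟨h4, h5⟩
            · rw [h4, h5] at h2; tauto
            · rw [h4, h5] at h2; tauto
          have hX' := hX
          rw [hP, Finset.mem_filter] at hX'
          have hXv : X = cls S0 v := parts_uniq hX'.1 hvX
          have hnS : ¬ inc a b e ∈ S := by
            intro h6
            apply hX'.2 v hvX
            have h7 : rel S (a e) (b e) := h6
            rcases hv with ⟨h4, h5⟩ | ⟨h4, h5⟩
            · rw [h4, h5] at h7; exact rel_symm h7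
            · rw [h4, h5] at h7; exact h7
          rw [if_pos h2, if_pos hXv, if_pos hnS]
        · rw [if_neg h2]; exact Nat.zero_le _
      refine (Finset.sum_le_sum h1).trans ?_
      rw [← Finset.sum_filter, Finset.sum_const, smul_eq_mul]
      have h2 : (P.filter (fun X => X = cls S0 v)).card ≤ 1 := by
        apply Finset.card_le_one.2
        intro x hx y hy
        rw [Finset.mem_filter] at hx hy
        rw [hx.2, hy.2]
      calc _ ≤ 1 * (if ¬ inc a b e ∈ S then 1 else 0) := Nat.mul_le_mul_right _ h2
        _ = _ := one_mul _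
    rcases (hL e).1 he with h | h
    · exact key (b e) (Or.inl ⟨h, rfl⟩)
    · exact key (a e) (Or.inr ⟨h, rfl⟩)
  have hK := count a b S0 (univ \ L)
  -- numeric inequality
  have hsplit : ∀ f : Finset W → ℕ, ∑ X ∈ parts S0, f X = ∑ X ∈ P, f X + ∑ X ∈ Q, f X := by
    intro f
    rw [hP, hQ, Finset.sum_filter_add_sum_filter_not]
  have hT0c : T0.card = ∑ X ∈ parts S0, (if cn a b (univ \ L) X ≠ 0 then 1 else 0) := by
    rw [hT0, Finset.card_filter]
  have hP1c : P1.card = ∑ X ∈ P, (if cn a b univ X ≠ 0 then 1 else 0) := by
    rw [hP1, Finset.card_filter]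
  have hnum : 2 * P1.card + T0.card ≤
      2 * ((univ \ L).filter (fun e => ¬ inc a b e ∈ S0)).card +
          (L.filter (fun e => ¬ inc a b e ∈ S)).card := by
    rw [← hK, hT0c, hsplit, hsplit, hP1c, Finset.mul_sum]
    have e1 : ∑ X ∈ P, (2 * (if cn a b univ X ≠ 0 then 1 else 0) +
        (if cn a b (univ \ L) X ≠ 0 then 1 else 0)) ≤
        ∑ X ∈ P, (cn a b (univ \ L) X + cn a b L X) := by
      apply Finset.sum_le_sum
      intro X _
      have h4 := h3 X
      have h5 := hcn X
      split_ifs <;> omega
    have e2 : ∑ X ∈ Q, (if cn a b (univ \ L) X ≠ 0 then 1 else 0) ≤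
        ∑ X ∈ Q, cn a b (univ \ L) X := by
      apply Finset.sum_le_sum
      intro X _
      split_ifs <;> omega
    rw [Finset.sum_add_distrib, Finset.sum_add_distrib] at e1
    omega
  -- rank bounds
  by_cases hWe : IsEmpty E
  · have h1 : ∀ M : Finset E, Module.finrank F2 (sp F2 (inc a b) M) = 0 := by
      intro M
      have : sp F2 (inc a b) M = ⊥ := by
        unfold sp
        rw [Submodule.span_eq_bot]
        rintro _ ⟨e, _, rfl⟩
        exact (hWe.false e).elim
      rw [this, finrank_bot]
    rw [h1, h1]
    omega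
  rw [not_isEmpty_iff] at hWe
  have hWne : Nonempty W := ⟨a hWe.some⟩
  have hrep : ∀ X : Finset W, ∃ w, X ∈ parts S0 → w ∈ X := by
    intro X
    by_cases hX : X ∈ parts S0
    · obtain ⟨v, _, rfl⟩ := Finset.mem_image.1 hX
      exact ⟨v, fun _ => self_mem_cls S0 v⟩
    · exact ⟨hWne.some, fun h => absurd h hX⟩
  choose rep hrep using hrep
  have hA : Module.finrank F2 (sp F2 (inc a b) (univ \ L)) ≤ Module.finrank F2 S0 + T0.card := by
    let T : Finset (W → F2) := T0.image (fun X => Pi.single (rep X) 1)
    have hle' : sp F2 (inc a b) (univ \ L) ≤ S0 ⊔ Submodule.span F2 (T : Set (W → F2)) := by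
      unfold sp
      rw [Submodule.span_le]
      rintro _ ⟨e, he, rfl⟩
      by_cases h : inc a b e ∈ S0
      · exact Submodule.mem_sup_left h
      · have hmem : ∀ w, (w = a e ∨ w = b e) →
            (Pi.single w 1 : W → F2) ∈ S0 ⊔ Submodule.span F2 (T : Set (W → F2)) := by
          intro w hw
          have hk : cls S0 w ∈ T0 := by
            rw [hT0, Finset.mem_filter]
            refine ⟨cls_mem_parts _ _, ?_⟩
            unfold cn
            rw [Finset.card_ne_zero]
            refine ⟨e, ?_⟩
            rw [Finset.mem_filter]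
            refine ⟨he, ?_⟩
            intro h2
            apply h
            show rel S0 (a e) (b e)
            rcases hw with rfl | rfl
            · exact mem_cls.1 (h2.1 (self_mem_cls _ _))
            · exact rel_symm (mem_cls.1 (h2.2 (self_mem_cls _ _)))
          have h1 : (Pi.single w 1 + Pi.single (rep (cls S0 w)) 1 : W → F2) ∈ S0 :=
            mem_cls.1 (hrep _ (cls_mem_parts _ _))
          have h2 : (Pi.single (rep (cls S0 w)) 1 : W → F2) ∈
              Submodule.span F2 (T : Set (W → F2)) := by
            apply Submodule.subset_span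
            rw [Finset.mem_coe]
            exact Finset.mem_image.2 ⟨cls S0 w, hk, rfl⟩
          have h3 : (Pi.single w 1 : W → F2) =
              (Pi.single w 1 + Pi.single (rep (cls S0 w)) 1) + Pi.single (rep (cls S0 w)) 1 := by
            rw [add_assoc, vself, add_zero]
          rw [h3]
          exact Submodule.add_mem _ (Submodule.mem_sup_left h1) (Submodule.mem_sup_right h2)
        exact Submodule.add_mem _ (hmem _ (Or.inl rfl)) (hmem _ (Or.inr rfl))
    have h1 := Submodule.finrank_mono hle'
    have h2 := Submodule.finrank_add_le_finrank_add_finrank S0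
      (Submodule.span F2 (T : Set (W → F2)))
    have h4 : Module.finrank F2 (Submodule.span F2 (T : Set (W → F2))) ≤ T.card :=
      finrank_span_finset_le_card T
    have h5 : T.card ≤ T0.card := Finset.card_image_le
    omega
  have hB : Module.finrank F2 (sp F2 (inc a b) univ) ≤ Module.finrank F2 S + P1.card := by
    let T : Finset (W → F2) := P1.image (fun X => Pi.single (rep X) 1 + Pi.single c 1)
    have hle' : sp F2 (inc a b) univ ≤ S ⊔ Submodule.span F2 (T : Set (W → F2)) := by
      unfold sp
      rw [Submodule.span_le]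
      rintro _ ⟨e, _, rfl⟩
      by_cases h : inc a b e ∈ S
      · exact Submodule.mem_sup_left h
      · have hmem : ∀ w, (w = a e ∨ w = b e) →
            (Pi.single w 1 + Pi.single c 1 : W → F2) ∈
              S ⊔ Submodule.span F2 (T : Set (W → F2)) := by
          intro w hw
          by_cases hwc : rel S w c
          · exact Submodule.mem_sup_left hwc
          have hk : cls S0 w ∈ P1 := by
            rw [hP1, Finset.mem_filter, hP, Finset.mem_filter]
            refine ⟨⟨cls_mem_parts _ _, ?_⟩, ?_⟩
            · intro v hv h2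
              exact hwc (rel_trans (hle (mem_cls.1 hv)) h2)
            · unfold cn
              rw [Finset.card_ne_zero]
              refine ⟨e, ?_⟩
              rw [Finset.mem_filter]
              refine ⟨Finset.mem_univ _, ?_⟩
              intro h2
              apply h
              show rel S (a e) (b e)
              rcases hw with rfl | rfl
              · exact hle (mem_cls.1 (h2.1 (self_mem_cls _ _)))
              · exact rel_symm (hle (mem_cls.1 (h2.2 (self_mem_cls _ _))))
          have h1 : (Pi.single w 1 + Pi.single (rep (cls S0 w)) 1 : W → F2) ∈ S :=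
            hle (mem_cls.1 (hrep _ (cls_mem_parts _ _)))
          have h2 : (Pi.single (rep (cls S0 w)) 1 + Pi.single c 1 : W → F2) ∈
              Submodule.span F2 (T : Set (W → F2)) := by
            apply Submodule.subset_span
            rw [Finset.mem_coe]
            exact Finset.mem_image.2 ⟨cls S0 w, hk, rfl⟩
          have h3 : (Pi.single w 1 + Pi.single c 1 : W → F2) =
              (Pi.single w 1 + Pi.single (rep (cls S0 w)) 1) +
                (Pi.single (rep (cls S0 w)) 1 + Pi.single c 1) := by
            rw [show (Pi.single w 1 + Pi.single (rep (cls S0 w)) 1 : W → F2) +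
                (Pi.single (rep (cls S0 w)) 1 + Pi.single c 1) =
              Pi.single w 1 + (Pi.single (rep (cls S0 w)) 1 + Pi.single (rep (cls S0 w)) 1) +
                Pi.single c 1 by abel, vself, add_zero]
          rw [h3]
          exact Submodule.add_mem _ (Submodule.mem_sup_left h1) (Submodule.mem_sup_right h2)
        have h4 := Submodule.add_mem _ (hmem _ (Or.inl rfl)) (hmem _ (Or.inr rfl))
        have h5 : (Pi.single (a e) 1 + Pi.single c 1 : W → F2) +
            (Pi.single (b e) 1 + Pi.single c 1) = inc a b e := by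
          unfold inc
          rw [show (Pi.single (a e) 1 + Pi.single c 1 : W → F2) +
            (Pi.single (b e) 1 + Pi.single c 1) = Pi.single (a e) 1 + Pi.single (b e) 1 +
              (Pi.single c 1 + Pi.single c 1) by abel, vself, add_zero]
        rw [h5] at h4
        exact h4
    have h1 := Submodule.finrank_mono hle'
    have h2 := Submodule.finrank_add_le_finrank_add_finrank S
      (Submodule.span F2 (T : Set (W → F2)))
    have h4 : Module.finrank F2 (Submodule.span F2 (T : Set (W → F2))) ≤ T.card :=
      finrank_span_finset_le_card T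
    have h5 : T.card ≤ P1.card := Finset.card_image_le
    omega
  omega

end Pool.Agent.W831.HI
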