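import Pool.Agent.W831.HI.Loops
import Pool.Agent.H126R2.NC.L4

set_option autoImplicit false
set_option linter.unusedSectionVars false

/-!
Even weightings that are constant on a circuit and constant off it.
-/

open Finset

namespace Pool.Agent.W831.HI

open Pool.Agent.H126R2.NC (InCone InLat InIntCone cone_lat_of_intCone bridgeless_of_cone)

variable {V E : Type} [Fintype V] [DecidableEq V] [Fintype E] [DecidableEq E]

/-- at a vertex of degree three on the circuit the cone forces `b ≤ 2 a` -/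
theorem cone_vertex (G : LG V E) (C : Finset E) (p : E → ℕ) (a b : ℕ)
    (ha : ∀ e ∈ C, p e = a) (hb : ∀ e, e ∉ C → p e = b) (hp : InCone G p) (v : V)
    (h3 : G.deg univ v = 3) (h2 : G.deg C v = 2) : b ≤ 2 * a := by
  obtain ⟨w, h0, h1, hw⟩ := hp
  have hsd := G.deg_sdiff (Finset.subset_univ C) v
  have hone : G.deg (univ \ C) v = 1 := by omega
  rw [G.deg_eq_sum] at hone
  obtain ⟨e, he, hev⟩ : ∃ e ∈ univ \ C, G.ep e v ≠ 0 := by
    by_contra hcon
    push Not at hcon
    rw [Finset.sum_eq_zero hcon] at hone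
    exact absurd hone (by norm_num)
  have heC : e ∉ C := (Finset.mem_sdiff.1 he).2
  have key : ∀ D : Finset E, w D * (2 * (if e ∈ D then (1 : ℝ) else 0)) ≤
      w D * (G.deg D v : ℝ) := by
    intro D
    by_cases hD : G.IsCircuit D
    · apply mul_le_mul_of_nonneg_left _ (h0 D)
      by_cases heD : e ∈ D
      · have h4 : 0 < G.deg D v := by
          rw [G.deg_eq_sum]
          exact lt_of_lt_of_le (Nat.pos_of_ne_zero hev)
            (Finset.single_le_sum (f := fun e => G.ep e v) (fun _ _ => Nat.zero_le _) heD)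
        have h5 : G.deg D v = 2 := by
          rcases hD.2.1 v with h | h <;> omega
        rw [if_pos heD, h5]
        norm_num
      · rw [if_neg heD]
        simp
    · rw [h1 D hD]
      simp
  have hsum1 : ∑ D : Finset E, w D * (2 * (if e ∈ D then (1 : ℝ) else 0)) = 2 * b := by
    rw [← hb e heC, hw e, Finset.mul_sum]
    exact Finset.sum_congr rfl fun D _ => by ring
  have hsum2 : ∑ D : Finset E, w D * (G.deg D v : ℝ) = ∑ f : E, (G.ep f v : ℝ) * p f := by
    have h4 : ∀ D ∈ (univ : Finset (Finset E)), w D * (G.deg D v : ℝ) =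
        ∑ f : E, (G.ep f v : ℝ) * (w D * (if f ∈ D then (1 : ℝ) else 0)) := by
      intro D _
      rw [G.deg_eq_sum, Nat.cast_sum, Finset.mul_sum]
      have h5 : ∀ f ∈ (univ : Finset E), (G.ep f v : ℝ) * (w D * (if f ∈ D then (1 : ℝ) else 0)) =
          if f ∈ D then w D * (G.ep f v : ℝ) else 0 := by
        intro f _
        by_cases hf : f ∈ D
        · rw [if_pos hf, if_pos hf]; ring
        · rw [if_neg hf, if_neg hf]; ring
      rw [Finset.sum_congr rfl h5, ← Finset.sum_filter, Finset.filter_mem_eq_inter,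
        Finset.univ_inter]
    rw [Finset.sum_congr rfl h4, Finset.sum_comm]
    refine Finset.sum_congr rfl fun f _ => ?_
    rw [hw f, Finset.mul_sum]
  have hsum3 : ∑ f : E, (G.ep f v : ℝ) * p f = 2 * a + b := by
    have h4 : ∑ f ∈ C, (G.ep f v : ℝ) * p f = 2 * a := by
      have h5 : ∀ f ∈ C, (G.ep f v : ℝ) * p f = (G.ep f v : ℝ) * a := by
        intro f hf; rw [ha f hf]
      rw [Finset.sum_congr rfl h5, ← Finset.sum_mul, ← Nat.cast_sum, ← G.deg_eq_sum, h2]
      norm_num
    have h5 : ∑ f ∈ univ \ C, (G.ep f v : ℝ) * p f = b := by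
      have h6 : ∀ f ∈ univ \ C, (G.ep f v : ℝ) * p f = (G.ep f v : ℝ) * b := by
        intro f hf; rw [hb f (Finset.mem_sdiff.1 hf).2]
      rw [Finset.sum_congr rfl h6, ← Finset.sum_mul, ← Nat.cast_sum, hone]
      norm_num
    rw [← Finset.sum_sdiff (Finset.subset_univ C), h4, h5]
    ring
  have hfin : (2 * b : ℝ) ≤ 2 * a + b := by
    rw [← hsum1, ← hsum3, ← hsum2]
    exact Finset.sum_le_sum fun D _ => key D
  have h6 : (b : ℝ) ≤ 2 * a := by linarith
  exact_mod_cast h6

/-- Even weightings constant on a circuit and constant off it. -/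
theorem two_valued_iff (G : LG V E) (C : Finset E) (hC : G.IsCircuit C) (p : E → ℕ)
    (hev : ∀ e, Even (p e)) (hpos : ∀ e, 0 < p e) (hp : ∀ e f, (e ∈ C ↔ f ∈ C) → p e = p f)
    (h : (∀ e ∈ C, ∀ f, p f ≤ 2 * p e) ∨ ∃ v, G.deg univ v = 3 ∧ G.deg C v = 2) :
    InIntCone G p ↔ InCone G p ∧ InLat G p := by
  refine ⟨cone_lat_of_intCone G p, fun ⟨hc, _⟩ => ?_⟩
  have hG := bridgeless_of_cone G p hc hpos
  obtain ⟨e0, he0⟩ := hC.1
  by_cases hall : ∀ e, e ∈ C
  · obtain ⟨F, hF1, hF2⟩ := two_valued G hG C hC (p e0) 0 ⟨0, rfl⟩ (Nat.zero_le _)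
      (fun _ => hev e0)
    refine ⟨F, hF1, fun e => ?_⟩
    rw [hF2 e, if_pos (hall e)]
    exact hp e0 e (iff_of_true he0 (hall e))
  · push Not at hall
    obtain ⟨f0, hf0⟩ := hall
    have hle : p f0 ≤ 2 * p e0 := by
      rcases h with h | ⟨v, h3, h2⟩
      · exact h e0 he0 f0
      · exact cone_vertex G C p (p e0) (p f0) (fun e he => hp e e0 (iff_of_true he he0))
          (fun e he => hp e f0 (iff_of_false he hf0)) hc v h3 h2
    obtain ⟨F, hF1, hF2⟩ := two_valued G hG C hC (p e0) (p f0) (hev f0) hle (fun _ => hev e0)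
    refine ⟨F, hF1, fun e => ?_⟩
    rw [hF2 e]
    by_cases he : e ∈ C
    · rw [if_pos he]; exact hp e0 e (iff_of_true he0 he)
    · rw [if_neg he]; exact hp f0 e (iff_of_false hf0 he)

end Pool.Agent.W831.HI
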